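import Pool.Agent.helper51.VF.Defs

/-!
# Project vf: lemmas on `Loc`, `LocI`
-/

set_option autoImplicit false

namespace Pool.Agent.VF

open Pool.Agent.PC Pool.Agent.QS

universe u

section loc

variable {A K : Type u} [CommRing A] [Field K] [Algebra A K]

theorem LB_ne [IsDomain A] [IsFractionRing A K] {Q : Ideal A} {s : A} (hs : s ∉ Q) :
    algebraMap A K s ≠ 0 := by
  intro h
  apply hs
  have : s = 0 := IsFractionRing.injective A K (by rw [h, map_zero])
  rw [this]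
  exact Q.zero_mem

theorem LB_of [IsDomain A] [IsFractionRing A K] {Q : Ideal A} (hQ : Q ≠ ⊤) (a : A) :
    Loc Q (algebraMap A K a) :=
  ⟨a, 1, (Ideal.ne_top_iff_one Q).1 hQ, by simp⟩

theorem LB_zero {Q : Ideal A} (hQ : Q ≠ ⊤) : Loc Q (0 : K) :=
  ⟨0, 1, (Ideal.ne_top_iff_one Q).1 hQ, by simp⟩

theorem LB_one {Q : Ideal A} (hQ : Q ≠ ⊤) : Loc Q (1 : K) :=
  ⟨1, 1, (Ideal.ne_top_iff_one Q).1 hQ, by simp⟩

theorem LB_add [IsDomain A] [IsFractionRing A K] {Q : Ideal A} [hQ : Q.IsPrime] {x y : K}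
    (hx : Loc Q x) (hy : Loc Q y) : Loc Q (x + y) := by
  obtain ⟨a, s, hs, rfl⟩ := hx
  obtain ⟨b, t, ht, rfl⟩ := hy
  have h1 := LB_ne (K := K) hs
  have h2 := LB_ne (K := K) ht
  refine ⟨a * t + b * s, s * t, hQ.mul_notMem hs ht, ?_⟩
  rw [map_add, map_mul, map_mul, map_mul]
  field_simp

theorem LB_mul [IsDomain A] [IsFractionRing A K] {Q : Ideal A} [hQ : Q.IsPrime] {x y : K}
    (hx : Loc Q x) (hy : Loc Q y) : Loc Q (x * y) := by
  obtain ⟨a, s, hs, rfl⟩ := hx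
  obtain ⟨b, t, ht, rfl⟩ := hy
  refine ⟨a * b, s * t, hQ.mul_notMem hs ht, ?_⟩
  rw [map_mul, map_mul, div_mul_div_comm]

theorem LB_neg {Q : Ideal A} {x : K} (hx : Loc Q x) : Loc Q (-x) := by
  obtain ⟨a, s, hs, rfl⟩ := hx
  exact ⟨-a, s, hs, by rw [map_neg, neg_div]⟩

theorem LB_sub [IsDomain A] [IsFractionRing A K] {Q : Ideal A} [hQ : Q.IsPrime] {x y : K}
    (hx : Loc Q x) (hy : Loc Q y) : Loc Q (x - y) := by
  rw [sub_eq_add_neg]
  exact LB_add hx (LB_neg hy)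

theorem LB_pow [IsDomain A] [IsFractionRing A K] {Q : Ideal A} [hQ : Q.IsPrime] {x : K}
    (hx : Loc Q x) (n : ℕ) : Loc Q (x ^ n) := by
  induction n with
  | zero => simpa using LB_one (K := K) hQ.ne_top
  | succ n ih => rw [pow_succ]; exact LB_mul ih hx

theorem LB_sum [IsDomain A] [IsFractionRing A K] {Q : Ideal A} [hQ : Q.IsPrime] {ι : Type*}
    (s : Finset ι) (f : ι → K) (h : ∀ i ∈ s, Loc Q (f i)) : Loc Q (∑ i ∈ s, f i) := by
  classical
  induction s using Finset.induction_on with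
  | empty => simpa using LB_zero (K := K) hQ.ne_top
  | insert i s his ih =>
    rw [Finset.sum_insert his]
    exact LB_add (h i (by simp)) (ih fun j hj => h j (by simp [hj]))

/-- The local ring as a subring. -/
def LB_sub_ring (K : Type u) [Field K] [Algebra A K] [IsDomain A] [IsFractionRing A K] (Q : Ideal A)
    [hQ : Q.IsPrime] : Subring K where
  carrier := {x | Loc Q x}
  mul_mem' := LB_mul
  one_mem' := LB_one hQ.ne_top
  add_mem' := LB_add
  zero_mem' := LB_zero hQ.ne_top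
  neg_mem' := LB_neg

/-- Constants of a field `k ⊆ A`. -/
theorem LB_const {k : Type u} [Field k] [Algebra k A] [Algebra k K] [IsScalarTower k A K] [IsDomain A]
    [IsFractionRing A K] {Q : Ideal A} (hQ : Q ≠ ⊤) (c : k) : Loc Q (algebraMap k K c) := by
  rw [IsScalarTower.algebraMap_apply k A K]
  exact LB_of hQ _

/-- Inverses of integers. -/
theorem LB_natInv {k : Type u} [Field k] [Algebra k A] [Algebra k K] [IsScalarTower k A K] [IsDomain A]
    [IsFractionRing A K] {Q : Ideal A} (hQ : Q ≠ ⊤) (n : ℕ) : Loc Q ((n : K)⁻¹) := by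
  have := LB_const (k := k) (K := K) hQ ((n : k)⁻¹)
  rwa [map_inv₀, map_natCast] at this

theorem LB_mono {Q m : Ideal A} (h : Q ≤ m) {x : K} (hx : Loc m x) : Loc Q x := by
  obtain ⟨a, s, hs, rfl⟩ := hx
  exact ⟨a, s, fun h' => hs (h h'), rfl⟩

theorem LB_I_loc {Q J : Ideal A} {x : K} (hx : LocI Q J x) : Loc Q x := by
  obtain ⟨a, s, hs, _, rfl⟩ := hx
  exact ⟨a, s, hs, rfl⟩

theorem LB_I_mono {Q J J' : Ideal A} (h : J ≤ J') {x : K} (hx : LocI Q J x) : LocI Q J' x := by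
  obtain ⟨a, s, hs, ha, rfl⟩ := hx
  exact ⟨a, s, hs, h ha, rfl⟩

theorem LB_I_mono_left {Q m J : Ideal A} (h : Q ≤ m) {x : K} (hx : LocI m J x) : LocI Q J x := by
  obtain ⟨a, s, hs, ha, rfl⟩ := hx
  exact ⟨a, s, fun h' => hs (h h'), ha, rfl⟩

theorem LB_I_of [IsDomain A] [IsFractionRing A K] {Q J : Ideal A} (hQ : Q ≠ ⊤) {a : A} (ha : a ∈ J) :
    LocI Q J (algebraMap A K a) :=
  ⟨a, 1, (Ideal.ne_top_iff_one Q).1 hQ, ha, by simp⟩

theorem LB_I_zero {Q J : Ideal A} (hQ : Q ≠ ⊤) : LocI Q J (0 : K) :=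
  ⟨0, 1, (Ideal.ne_top_iff_one Q).1 hQ, J.zero_mem, by simp⟩

theorem LB_I_add [IsDomain A] [IsFractionRing A K] {Q J : Ideal A} [hQ : Q.IsPrime] {x y : K}
    (hx : LocI Q J x) (hy : LocI Q J y) : LocI Q J (x + y) := by
  obtain ⟨a, s, hs, ha, rfl⟩ := hx
  obtain ⟨b, t, ht, hb, rfl⟩ := hy
  have h1 := LB_ne (K := K) hs
  have h2 := LB_ne (K := K) ht
  refine ⟨a * t + b * s, s * t, hQ.mul_notMem hs ht,
    J.add_mem (J.mul_mem_right _ ha) (J.mul_mem_right _ hb), ?_⟩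
  rw [map_add, map_mul, map_mul, map_mul]
  field_simp

theorem LB_I_neg {Q J : Ideal A} {x : K} (hx : LocI Q J x) : LocI Q J (-x) := by
  obtain ⟨a, s, hs, ha, rfl⟩ := hx
  exact ⟨-a, s, hs, J.neg_mem ha, by rw [map_neg, neg_div]⟩

theorem LB_I_sub [IsDomain A] [IsFractionRing A K] {Q J : Ideal A} [hQ : Q.IsPrime] {x y : K}
    (hx : LocI Q J x) (hy : LocI Q J y) : LocI Q J (x - y) := by
  rw [sub_eq_add_neg]
  exact LB_I_add hx (LB_I_neg hy)

theorem LB_I_sum [IsDomain A] [IsFractionRing A K] {Q J : Ideal A} [hQ : Q.IsPrime] {ι : Type*}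
    (s : Finset ι) (f : ι → K) (h : ∀ i ∈ s, LocI Q J (f i)) : LocI Q J (∑ i ∈ s, f i) := by
  classical
  induction s using Finset.induction_on with
  | empty => simpa using LB_I_zero (K := K) hQ.ne_top
  | insert i s his ih =>
    rw [Finset.sum_insert his]
    exact LB_I_add (h i (by simp)) (ih fun j hj => h j (by simp [hj]))

theorem LB_I_mul [IsDomain A] [IsFractionRing A K] {Q J J' : Ideal A} [hQ : Q.IsPrime] {x y : K}
    (hx : LocI Q J x) (hy : LocI Q J' y) : LocI Q (J * J') (x * y) := by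
  obtain ⟨a, s, hs, ha, rfl⟩ := hx
  obtain ⟨b, t, ht, hb, rfl⟩ := hy
  refine ⟨a * b, s * t, hQ.mul_notMem hs ht, Ideal.mul_mem_mul ha hb, ?_⟩
  rw [map_mul, map_mul, div_mul_div_comm]

theorem LB_I_mul_left [IsDomain A] [IsFractionRing A K] {Q J : Ideal A} [hQ : Q.IsPrime] {x y : K}
    (hx : Loc Q x) (hy : LocI Q J y) : LocI Q J (x * y) := by
  obtain ⟨a, s, hs, rfl⟩ := hx
  obtain ⟨b, t, ht, hb, rfl⟩ := hy
  refine ⟨a * b, s * t, hQ.mul_notMem hs ht, J.mul_mem_left _ hb, ?_⟩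
  rw [map_mul, map_mul, div_mul_div_comm]

theorem LB_I_top {Q : Ideal A} {x : K} (hx : Loc Q x) : LocI Q ⊤ x := by
  obtain ⟨a, s, hs, rfl⟩ := hx
  exact ⟨a, s, hs, Submodule.mem_top, rfl⟩

/-- An element of `A` lies in `J A_Q` iff `Inn Q J a`. -/
theorem LB_I_inn [IsDomain A] [IsFractionRing A K] {Q J : Ideal A} {a : A} :
    LocI Q J (algebraMap A K a) ↔ Inn Q J a := by
  constructor
  · rintro ⟨b, s, hs, hb, h⟩
    refine ⟨s, hs, ?_⟩
    have h1 := LB_ne (K := K) hs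
    have h2 : algebraMap A K (s * a) = algebraMap A K b := by
      rw [map_mul, h]
      field_simp
    rw [IsFractionRing.injective A K h2]
    exact hb
  · rintro ⟨s, hs, h⟩
    have h1 := LB_ne (K := K) hs
    refine ⟨s * a, s, hs, h, ?_⟩
    rw [map_mul]
    field_simp

/-- For a prime `Q`: `a ∈ A` lies in `Q A_Q` iff `a ∈ Q`. -/
theorem LB_I_self [IsDomain A] [IsFractionRing A K] {Q : Ideal A} [hQ : Q.IsPrime] {a : A} :
    LocI Q Q (algebraMap A K a) ↔ a ∈ Q := by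
  rw [LB_I_inn]
  constructor
  · rintro ⟨s, hs, h⟩
    exact (hQ.mem_or_mem h).resolve_left hs
  · intro h
    exact ⟨1, (Ideal.ne_top_iff_one Q).1 hQ.ne_top, by rwa [one_mul]⟩

/-- `P A_Q ∩ A_m = P A_m` for a prime `P ≤ Q ≤ m`; in particular for `P = Q`. -/
theorem LB_I_inter [IsDomain A] [IsFractionRing A K] {P Q m : Ideal A} [hP : P.IsPrime]
    (hPQ : P ≤ Q) {x : K} (hx : Loc m x) (hx' : LocI Q P x) (hQm : Q ≤ m) :
    LocI m P x := by
  obtain ⟨a, s, hs, rfl⟩ := hx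
  obtain ⟨b, t, ht, hb, h⟩ := hx'
  refine ⟨a, s, hs, ?_, rfl⟩
  have h1 := LB_ne (K := K) hs
  have h2 := LB_ne (K := K) ht
  rw [div_eq_div_iff h1 h2, ← map_mul, ← map_mul] at h
  have h3 := IsFractionRing.injective A K h
  have h4 : a * t ∈ P := by
    rw [h3]
    exact P.mul_mem_right _ hb
  have _ := hQm
  exact (hP.mem_or_mem h4).resolve_right fun h5 => ht (hPQ h5)

/-- The inverse of a unit of `A_Q`. -/
theorem LB_inv {Q : Ideal A} {x : K} (hx : Loc Q x) (hx' : ¬ LocI Q Q x) : Loc Q x⁻¹ := by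
  obtain ⟨a, s, hs, rfl⟩ := hx
  have ha : a ∉ Q := fun h => hx' ⟨a, s, hs, h, rfl⟩
  exact ⟨s, a, ha, by rw [inv_div]⟩

/-- A unit of `A_m` is a unit of `A_Q`, `Q ≤ m`. -/
theorem LB_unit_mono [IsDomain A] [IsFractionRing A K] {Q m : Ideal A} [hQ : Q.IsPrime] (h : Q ≤ m) {x : K}
    (hx : Loc m x) (hx' : ¬ LocI m m x) : ¬ LocI Q Q x := by
  intro h'
  exact hx' (LB_I_mono h (LB_I_inter le_rfl hx h' h))

end loc

section der

variable {A F K : Type u} [CommRing A] [Field F] [Field K] [Algebra A K] [Algebra F K] [IsDomain A]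
  [IsFractionRing A K]

theorem LB_der_div (δ : Derivation F K K) (a s : K) (hs : s ≠ 0) :
    δ (a / s) = (s * δ a - a * δ s) / s ^ 2 := by
  have h1 : δ (a / s * s) = δ a := by rw [div_mul_cancel₀ a hs]
  rw [δ.leibniz, smul_eq_mul, smul_eq_mul] at h1
  rw [eq_div_iff (pow_ne_zero 2 hs), ← h1]
  field_simp
  ring

/-- `δ` maps `A_Q` to `A_Q`. -/
theorem LB_der {Q : Ideal A} [hQ : Q.IsPrime] {δ : Derivation F K K}
    (hδ : ∀ a : A, Loc Q (δ (algebraMap A K a))) {x : K} (hx : Loc Q x) : Loc Q (δ x) := by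
  obtain ⟨a, s, hs, rfl⟩ := hx
  have h1 := LB_ne (K := K) hs
  rw [LB_der_div δ _ _ h1, div_eq_mul_inv]
  refine LB_mul (LB_sub (LB_mul (LB_of hQ.ne_top s) (hδ a)) (LB_mul (LB_of hQ.ne_top a) (hδ s))) ?_
  exact ⟨1, s ^ 2, fun h => hs (hQ.mem_of_pow_mem 2 h), by rw [map_one, map_pow, one_div]⟩

theorem LB_der_iter {Q : Ideal A} [hQ : Q.IsPrime] {δ : Derivation F K K}
    (hδ : ∀ a : A, Loc Q (δ (algebraMap A K a))) (n : ℕ) {x : K} (hx : Loc Q x) : Loc Q ((⇑δ)^[n] x) := by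
  induction n with
  | zero => exact hx
  | succ n ih => rw [Function.iterate_succ_apply']; exact LB_der hδ ih

/-- `Fix` at `Q` and `Loc` at `m ≥ Q` give `Fix` at `m`. -/
theorem LB_fix_mono {Q m : Ideal A} [hQ : Q.IsPrime] (h : Q ≤ m) {δ : Derivation F K K}
    (hδ : ∀ a : A, Loc m (δ (algebraMap A K a))) (hf : Fix Q δ) : Fix m δ := fun a =>
  LB_I_mono h (LB_I_inter le_rfl (hδ a) (hf a) h)

/-- Leibniz rule for the iterates. -/
theorem LB_iter_mul (δ : Derivation F K K) (n : ℕ) (x y : K) :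
    (⇑δ)^[n] (x * y) = ∑ i ∈ Finset.range (n + 1), (n.choose i : K) * (⇑δ)^[i] x * (⇑δ)^[n - i] y := by
  induction n with
  | zero => simp
  | succ n ih =>
    rw [Function.iterate_succ_apply', ih, map_sum]
    have h1 : ∀ i ∈ Finset.range (n + 1), δ ((n.choose i : K) * (⇑δ)^[i] x * (⇑δ)^[n - i] y) =
        (n.choose i : K) * (⇑δ)^[i + 1] x * (⇑δ)^[n - i] y +
        (n.choose i : K) * (⇑δ)^[i] x * (⇑δ)^[n - i + 1] y := by
      intro i _
      rw [δ.leibniz, δ.leibniz, Function.iterate_succ_apply', Function.iterate_succ_apply']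
      have h0 : δ (n.choose i : K) = 0 := δ.map_natCast _
      rw [h0]
      simp only [smul_eq_mul, mul_zero, add_zero]
      ring
    rw [Finset.sum_congr rfl h1, Finset.sum_add_distrib]
    rw [Finset.sum_range_succ' (n := n + 1), Finset.sum_range_succ (n := n) (f := fun i => (n.choose i : K) *
      (⇑δ)^[i + 1] x * (⇑δ)^[n - i] y), Finset.sum_range_succ' (n := n) (f := fun i => (n.choose i : K) *
      (⇑δ)^[i] x * (⇑δ)^[n - i + 1] y), Finset.sum_range_succ (n := n)]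
    have h2 : ∀ i ∈ Finset.range n, ((n + 1).choose (i + 1) : K) * (⇑δ)^[i + 1] x * (⇑δ)^[n + 1 - (i + 1)] y =
        (n.choose i : K) * (⇑δ)^[i + 1] x * (⇑δ)^[n - i] y +
        (n.choose (i + 1) : K) * (⇑δ)^[i + 1] x * (⇑δ)^[n - (i + 1) + 1] y := by
      intro i hi
      have hi' : i < n := Finset.mem_range.1 hi
      have e1 : n + 1 - (i + 1) = n - i := by omega
      have e2 : n - (i + 1) + 1 = n - i := by omega
      rw [Nat.choose_succ_succ, e1, e2]
      push_cast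
      ring
    rw [Finset.sum_congr rfl h2, Finset.sum_add_distrib]
    simp only [Nat.choose_self, Nat.choose_zero_right, Nat.cast_one, one_mul, Nat.sub_self, Nat.sub_zero,
      Function.iterate_zero, id]
    ring

end der

end Pool.Agent.VF
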