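import Pool.Agent.helper51.VF.SpecB
import Pool.Agent.helper16.PC.CONR

/-!
# Project vf, row DIF (copy of DIS of project qs, helper53)
-/

set_option autoImplicit false

namespace Pool.Agent.VF

open Pool.Agent.PC Pool.Agent.QS MvPolynomial

universe u

theorem DIF_nonunit {F : Type u} [Field F] (O : ValuationSubring F) (x : F) (hx : x⁻¹ ∉ O) :
    x ∈ O.nonunits := by
  rw [ValuationSubring.mem_nonunits_iff]
  by_contra h
  push Not at h
  apply hx
  rw [← ValuationSubring.valuation_le_one_iff, map_inv₀]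
  exact inv_le_one_of_one_le₀ h

theorem DIF (hVBF : VBF_stmt.{u}) : DIF_stmt.{u} := by
  intro k F K _ _ _ _ _ _ _ _ _ n p _ _ x hx Ψ hΨ v hv hvk O w hRes c hLog ω g μ s t hω hg hμ hord hgt hlt
  obtain ⟨hO, hunif, hw, hval⟩ := hRes
  have hinj : Function.Injective (algebraMap F K) := (algebraMap F K).injective
  have hne : ∀ y : F, y ≠ 0 → algebraMap F K y ≠ 0 := fun y hy =>
    (map_ne_zero (algebraMap F K)).mpr hy
  obtain ⟨π, hπ, ξ, hξ, hωξ⟩ := hord
  -- the value of the uniformizer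
  have hvπ : v (algebraMap F K π) = v (algebraMap F K w) := by
    have h1 : HasOrd O π 1 := ⟨π, 1, hπ, by rw [map_one], by rw [one_mul, zpow_one]⟩
    have h2 := (hval π 1 hπ.1).1 h1
    rw [h2, one_mul]
  have hvg : v (algebraMap F K g) = t * v (algebraMap F K w) := (hval g t hg).1 hgt
  set e := v (algebraMap F K w) with he
  -- minimality of `e`
  have hmin : ∀ y : F, y ≠ 0 → 0 < v (algebraMap F K y) → e ≤ v (algebraMap F K y) := by
    intro y hy hpos
    have h1 : y ∈ O.nonunits := by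
      apply DIF_nonunit
      intro h2
      rw [hO, map_inv₀] at h2
      rcases h2 with h2 | h2
      · exact inv_ne_zero (hne y hy) h2
      · rw [CON_inv hv _ (hne y hy)] at h2
        omega
    obtain ⟨z, hz, hyz⟩ := (hunif.2 y).1 h1
    have hz0 : z ≠ 0 := by
      rintro rfl
      rw [mul_zero] at hyz
      exact hy hyz
    have h3 := (hO z).1 hz
    rcases h3 with h3 | h3
    · exact absurd h3 (hne z hz0)
    · rw [hyz, map_mul, hv.mul _ _ (hne w hunif.1) (hne z hz0)]
      omega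
  have hVB := hVBF k F K n p x hx Ψ v hv hvk c hLog e hmin
  -- regular forms
  have hreg : ∀ θ ∈ Reg k n O, Ge v (e + c) (Ψ θ) := by
    intro θ hθ
    unfold Reg at hθ
    induction hθ using AddSubgroup.closure_induction with
    | mem θ hθ =>
      obtain ⟨c0, hc0, a, ha, rfl⟩ := hθ
      rw [map_smul, Algebra.smul_def]
      have h1 := CON_ge_mul hv ((hO c0).1 hc0) (hVB a (fun i => (hO (a i)).1 (ha i)))
      rwa [zero_add] at h1
    | zero => rw [map_zero]; exact Or.inl rfl
    | add a b _ _ iha ihb => rw [map_add]; exact CON_ge_add hv iha ihb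
    | neg a _ iha => rw [map_neg]; exact CON_ge_neg hv iha
  have hΨω : Ψ ω = algebraMap F K π ^ s * Ψ ξ := by
    rw [hωξ, map_smul, Algebra.smul_def, map_zpow₀]
  have hΨω0 : Ψ ω ≠ 0 := fun h => hω (hΨ ω h)
  have hξ0 : Ψ ξ ≠ 0 := by
    intro h
    rw [h, mul_zero] at hΨω
    exact hΨω0 hΨω
  have hπ0 : algebraMap F K π ≠ 0 := hne π hπ.1
  have h5 : v (Ψ ω) = s * e + v (Ψ ξ) := by
    rw [hΨω, hv.mul _ _ (zpow_ne_zero s hπ0) hξ0, CON_zpow hv _ hπ0, hvπ]
  have h6 : e + c ≤ v (Ψ ξ) := by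
    rcases hreg ξ hξ with h | h
    · exact absurd h hξ0
    · exact h
  have h7 : t < μ * (s + 1) := by
    have hμ' : (0 : ℚ) < μ := by exact_mod_cast hμ
    have h8 : (t : ℚ) / μ < s + 1 := by linarith
    rw [div_lt_iff₀ hμ'] at h8
    have h9 : (t : ℚ) < ((μ * (s + 1) : ℤ) : ℚ) := by
      push_cast
      linarith
    exact_mod_cast h9
  have hμ1 : (0 : ℤ) < μ := by exact_mod_cast hμ
  have h10 : t * e < μ * (s + 1) * e := mul_lt_mul_of_pos_right h7 hw
  have h11 : (μ : ℤ) * (s * e + (e + c)) ≤ μ * v (Ψ ω) := by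
    apply mul_le_mul_of_nonneg_left _ hμ1.le
    rw [h5]
    linarith
  rw [hvg]
  nlinarith

end Pool.Agent.VF
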