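import Pool.Agent.helper51.VF.SpecB
import Pool.Agent.helper51.QS.Lib

/-!
# Row vf:DSF: the discrepancy inequality for a valuation of the cover (copy of DSQ of project qs)
-/

set_option autoImplicit false

namespace Pool.Agent.VF

open Pool.Agent.PC Pool.Agent.QS

universe u

theorem DSF (hDVF : QS.DVF_stmt.{u}) (hDIF : DIF_stmt.{u}) (hCEH : QS.CEH_stmt.{u}) : DSF_stmt.{u} := by
  intro k R A F K _ _ _ _ _ _ _ _ _ _ _ _ _ _ _ _ _ _ _ _ _ _ _ _ _ _ _ _ n p _ _ x hx
    Ψ hΨ ω μ g hω hg hμ m _ hdis t u s e hs hgt v c hv hvk hvA hvm hres 𝔮 h𝔮 h𝔮0 h𝔮1 h𝔮2 hlog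
  obtain ⟨O, w, hR, hdiv⟩ := hDVF k F K n v hv hvk hres
  -- the centre of v on A
  obtain ⟨𝔠, h𝔠⟩ : ∃ 𝔠 : Ideal A, ∀ a, a ∈ 𝔠 ↔ Ge v 1 (algebraMap A K a) := by
    refine ⟨{ carrier := {a | Ge v 1 (algebraMap A K a)}, add_mem' := ?_, zero_mem' := ?_, smul_mem' := ?_ },
      fun a => Iff.rfl⟩
    · intro a b ha hb
      change Ge v 1 (algebraMap A K (a + b))
      rw [map_add]
      exact CON_ge_add hv ha hb
    · change Ge v 1 (algebraMap A K 0)
      rw [map_zero]
      exact Or.inl rfl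
    · intro a b hb
      change Ge v 1 (algebraMap A K (a • b))
      rw [smul_eq_mul, map_mul]
      have h := CON_ge_mul hv (hvA a) hb
      rwa [zero_add] at h
  have hinj := IsFractionRing.injective A K
  have h𝔠p : 𝔠.IsPrime := by
    refine ⟨?_, ?_⟩
    · intro h
      have h1 : (1 : A) ∈ 𝔠 := by rw [h]; exact Submodule.mem_top
      rw [h𝔠, map_one] at h1
      have h2 := h1.resolve_left one_ne_zero
      rw [ASA_v1 hv] at h2
      omega
    · intro a b hab
      rw [h𝔠] at hab
      rw [h𝔠, h𝔠]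
      by_cases ha : algebraMap A K a = 0
      · exact Or.inl (Or.inl ha)
      by_cases hb : algebraMap A K b = 0
      · exact Or.inr (Or.inl hb)
      rw [map_mul] at hab
      have h1 := hab.resolve_left (mul_ne_zero ha hb)
      rw [hv.mul _ _ ha hb] at h1
      have h2 := (hvA a).resolve_left ha
      have h3 := (hvA b).resolve_left hb
      by_cases h4 : 1 ≤ v (algebraMap A K a)
      · exact Or.inl (Or.inr h4)
      · exact Or.inr (Or.inr (by omega))
  have h𝔠m : 𝔠 ≤ m := by
    intro a ha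
    by_contra hcon
    have h1 : algebraMap A K a ≠ 0 := by
      intro h
      rw [map_eq_zero_iff _ hinj] at h
      rw [h] at hcon
      exact hcon m.zero_mem
    have h2 := ((h𝔠 a).1 ha).resolve_left h1
    rw [hvm a hcon] at h2
    omega
  have hlt : 𝔮 < 𝔠 := by
    refine lt_of_le_of_ne (fun a ha => (h𝔠 a).2 (h𝔮1 a ha)) ?_
    rintro rfl
    obtain ⟨a, ha1, ha2⟩ := h𝔮2
    exact ha2 ((h𝔠 a).2 ha1)
  have hht := hCEH R A 𝔮 𝔠 h𝔮 h𝔠p h𝔮0 hlt
  have hRK : ∀ r : R, algebraMap F K (algebraMap R F r) = algebraMap A K (algebraMap R A r) := by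
    intro r
    rw [← IsScalarTower.algebraMap_apply R F K, ← IsScalarTower.algebraMap_apply R A K]
  have hcen : IsCenter (𝔠.comap (algebraMap R A)) O := by
    intro r
    have h1 : algebraMap R F r ∈ O := by
      rw [hR.1, hRK]
      exact hvA _
    refine ⟨h1, ?_⟩
    rw [Ideal.mem_comap, h𝔠, ← hRK, ValuationSubring.mem_nonunits_iff]
    by_cases h0 : algebraMap R F r = 0
    · rw [h0, map_zero, map_zero]
      exact ⟨fun _ => zero_lt_one, fun _ => Or.inl rfl⟩
    · have hK0 : algebraMap F K (algebraMap R F r) ≠ 0 := by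
        intro h
        rw [map_eq_zero_iff _ (algebraMap F K).injective] at h
        exact h0 h
      have h2 : O.valuation (algebraMap R F r) < 1 ↔ ¬ (algebraMap R F r)⁻¹ ∈ O := by
        rw [← ValuationSubring.valuation_le_one_iff, not_le, map_inv₀]
        exact (one_lt_inv₀ (by
          rw [zero_lt_iff]
          exact (Valuation.ne_zero_iff _).2 h0)).symm
      rw [h2, hR.1, map_inv₀]
      have h3 : algebraMap F K (algebraMap R F r) ≠ 0 := hK0
      constructor
      · intro h4 h5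
        have h6 := h4.resolve_left h3
        have h7 := h5.resolve_left (inv_ne_zero h3)
        rw [CON_inv hv _ h3] at h7
        omega
      · intro h4
        right
        by_contra h5
        refine h4 (Or.inr ?_)
        rw [CON_inv hv _ h3]
        omega
  obtain ⟨s', t', h1, h2, h3⟩ := hdis (𝔠.comap (algebraMap R A)) O hdiv hcen hht
    (Ideal.comap_mono h𝔠m)
  have h4 := hDIF k F K n p x hx Ψ hΨ v hv hvk O w hR c hlog ω g μ s' t' hω hg hμ h1 h2 h3
  -- computation
  have hΨ0 : Ψ ω ≠ 0 := fun h => hω (hΨ ω h)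
  have hg0 : algebraMap F K g ≠ 0 := by
    intro h
    rw [map_eq_zero_iff _ (algebraMap F K).injective] at h
    exact hg h
  have hL0 : algebraMap F K g / Ψ ω ^ μ ≠ 0 := div_ne_zero hg0 (pow_ne_zero _ hΨ0)
  have hR0 : algebraMap A K t ^ (e * μ) * algebraMap A K u / algebraMap A K s ≠ 0 := by
    rw [← hgt]
    exact hL0
  have hs0 : algebraMap A K s ≠ 0 := by
    intro h
    rw [h, div_zero] at hR0
    exact hR0 rfl
  have hu0 : algebraMap A K u ≠ 0 := by
    intro h
    rw [h, mul_zero, zero_div] at hR0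
    exact hR0 rfl
  have hp0 : algebraMap A K t ^ (e * μ) ≠ 0 := by
    intro h
    rw [h, zero_mul, zero_div] at hR0
    exact hR0 rfl
  have hvp : v (algebraMap A K t ^ (e * μ)) = μ * (e * v (algebraMap A K t)) := by
    rcases Nat.eq_zero_or_pos e with he | he
    · rw [he, zero_mul, pow_zero, ASA_v1 hv]
      simp
    · have ht0 : algebraMap A K t ≠ 0 := by
        intro h
        rw [h, zero_pow (Nat.mul_pos he hμ).ne'] at hp0
        exact hp0 rfl
      rw [ASA_pow hv ht0]
      push_cast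
      ring
  have h5 : v (algebraMap F K g / Ψ ω ^ μ) = v (algebraMap F K g) - μ * v (Ψ ω) := by
    rw [CON_div hv _ _ hg0 (pow_ne_zero _ hΨ0), ASA_pow hv hΨ0]
  have h6 : v (algebraMap A K t ^ (e * μ) * algebraMap A K u / algebraMap A K s) =
      μ * (e * v (algebraMap A K t)) + v (algebraMap A K u) := by
    rw [CON_div hv _ _ (mul_ne_zero hp0 hu0) hs0, hv.mul _ _ hp0 hu0, hvp, hvm s hs, sub_zero]
  rw [← hgt, h5] at h6
  have h7 := (hvA u).resolve_left hu0
  have h8 : (μ : ℤ) * (e * v (algebraMap A K t)) < μ * (-c) := by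
    rw [mul_comm (μ : ℤ) (-c)]
    omega
  exact lt_of_mul_lt_mul_left h8 (by omega)

end Pool.Agent.VF
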