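import Pool.Agent.helper51.VF.SpecB
import Pool.Agent.helper51.VF.Lib
import Pool.Agent.helper16.PC.CONR

/-!
# Project vf, row EIP
-/

set_option autoImplicit false

namespace Pool.Agent.VF

open Pool.Agent.PC Pool.Agent.QS

universe u

/-- elements outside of `Q` have value `0` -/
theorem EIP_unit {A K : Type u} [CommRing A] [IsDomain A] [Field K] [Algebra A K]
    [IsFractionRing A K] {Q : Ideal A} (hQ : Q.IsPrime) {v : K → ℤ} (hv : LocV Q v) {s : A} (hs : s ∉ Q) :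
    v (algebraMap A K s) = 0 := by
  have h0 : algebraMap A K s ≠ 0 := LB_ne hs
  have h1 : Ge v 0 (algebraMap A K s) := (hv.2.1 _).2 (LB_of hQ.ne_top s)
  have h2 : ¬ Ge v 1 (algebraMap A K s) := fun h => hs ((hv.2.2 s).2 h)
  have h3 : 0 ≤ v (algebraMap A K s) := h1.resolve_left h0
  have h4 : ¬ 1 ≤ v (algebraMap A K s) := fun h => h2 (Or.inr h)
  omega

/-- values `≥ 1` -/
theorem EIP_locI {A K : Type u} [CommRing A] [IsDomain A] [Field K] [Algebra A K]
    [IsFractionRing A K] {Q : Ideal A} (hQ : Q.IsPrime) {v : K → ℤ} (hv : LocV Q v) {x : K} (hx : Ge v 1 x) :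
    LocI Q Q x := by
  obtain ⟨a, s, hs, rfl⟩ := (hv.2.1 x).1 (CON_ge_mono (by norm_num) hx)
  refine ⟨a, s, hs, ?_, rfl⟩
  rw [hv.2.2 a]
  rcases eq_or_ne (algebraMap A K a) 0 with h | h
  · exact Or.inl h
  · right
    have h1 : algebraMap A K s ≠ 0 := LB_ne hs
    rcases hx with hx | hx
    · exact absurd hx (div_ne_zero h h1)
    · rwa [CON_div hv.1 _ _ h h1, EIP_unit hQ hv hs, sub_zero] at hx

/-- **EIP** -/
theorem EIP : EIP_stmt.{u} := by
  intro A F K _ _ _ _ _ _ _ p hp _ Q v hQ hv δ hδ q hq hqδ f hf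
  have hDV : DVal v := hv.1
  have hder : ∀ x : K, Ge v 0 x → Ge v 0 (δ x) := by
    intro x hx
    exact (hv.2.1 _).2 (LB_der (hQ := hQ) hδ ((hv.2.1 _).1 hx))
  set Qz : K := algebraMap A K q with hQz
  have hδq : ¬ Ge v 1 (δ Qz) := fun h => hqδ (EIP_locI hQ hv h)
  have hδq0 : δ Qz ≠ 0 := fun h => hδq (Or.inl h)
  have hδqge : Ge v 0 (δ Qz) := (hv.2.1 _).2 (hδ q)
  have hvδq : v (δ Qz) = 0 := by
    have h3 : 0 ≤ v (δ Qz) := hδqge.resolve_left hδq0
    have h4 : ¬ 1 ≤ v (δ Qz) := fun h => hδq (Or.inr h)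
    omega
  have hq0 : Qz ≠ 0 := fun h => hδq0 (by rw [h, map_zero])
  have hvq1 : 1 ≤ v Qz := ((hv.2.2 q).1 hq).resolve_left hq0
  -- the value of q is 1
  have hvq : v Qz = 1 := by
    by_contra hne
    obtain ⟨π, hπ0, hπ⟩ := hDV.one
    have hy : v (Qz / π) = v Qz - 1 := by rw [CON_div hDV _ _ hq0 hπ0, hπ]
    have hy1 : Ge v 1 (Qz / π) := Or.inr (by omega)
    have hπ1 : Ge v 1 π := Or.inr (by omega)
    apply hδq
    have e : Qz = π * (Qz / π) := by field_simp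
    rw [e, δ.leibniz, smul_eq_mul, smul_eq_mul]
    have h1 := CON_ge_mul hDV hπ1 (hder _ (CON_ge_mono (by norm_num) hy1))
    have h2 := CON_ge_mul hDV hy1 (hder _ (CON_ge_mono (by norm_num) hπ1))
    exact CON_ge_add hDV (CON_ge_mono (by norm_num) h1) (CON_ge_mono (by norm_num) h2)
  have hf0 : algebraMap F K f ≠ 0 := by rwa [Ne, map_eq_zero]
  set g : K := algebraMap F K f with hg
  set N : ℤ := v g with hN
  set x : K := g / Qz ^ N with hx
  have hqN : Qz ^ N ≠ 0 := zpow_ne_zero _ hq0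
  have hx0 : x ≠ 0 := div_ne_zero hf0 hqN
  have hvx : v x = 0 := by
    rw [hx, CON_div hDV _ _ hf0 hqN, CON_zpow hDV _ hq0, hvq]
    omega
  have e1 : g = Qz ^ N * x := by rw [hx]; field_simp
  have h0 : δ g = 0 := by rw [hg, δ.map_algebraMap]
  rw [e1, δ.leibniz, δ.leibniz_zpow, smul_eq_mul, smul_eq_mul, smul_eq_mul, zsmul_eq_mul] at h0
  have e2 : Qz ^ N = Qz ^ (N - 1) * Qz := by rw [← zpow_add_one₀ hq0]; congr 1; ring
  have hqN1 : Qz ^ (N - 1) ≠ 0 := zpow_ne_zero _ hq0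
  have h1 : Qz * δ x + (N : K) * x * δ Qz = 0 := by
    apply mul_left_cancel₀ hqN1
    rw [mul_zero, ← h0, e2]
    ring
  rw [← CharP.intCast_eq_zero_iff K p]
  by_contra hNK
  have h2 : v (N : K) = 0 := by
    have h3 : ((N : K)) ^ p = (N : K) := by
      have := map_intCast (frobenius K p) N
      rwa [frobenius_def] at this
    have h4 : v ((N : K) ^ (p : ℤ)) = p * v (N : K) := CON_zpow hDV _ hNK p
    rw [zpow_natCast, h3] at h4
    have h5 : (2 : ℤ) ≤ p := by exact_mod_cast hp.out.two_le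
    nlinarith
  have h3 : (N : K) * x * δ Qz = -(Qz * δ x) := by linear_combination h1
  have h4 : Ge v 1 (-(Qz * δ x)) := by
    apply CON_ge_neg hDV
    have h5 := CON_ge_mul hDV (Or.inr hvq1 : Ge v 1 Qz) (hder x (Or.inr hvx.ge))
    exact CON_ge_mono (by norm_num) h5
  rw [← h3] at h4
  have h6 : (N : K) * x ≠ 0 := mul_ne_zero hNK hx0
  have h7 := h4.resolve_left (mul_ne_zero h6 hδq0)
  rw [hDV.mul _ _ h6 hδq0, hDV.mul _ _ hNK hx0, h2, hvx, hvδq] at h7
  norm_num at h7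

end Pool.Agent.VF
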