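import Pool.Agent.helper51.VF.SpecC

/-!
# Project vf, row NSP: normality at the nonsingular points
-/

set_option autoImplicit false

namespace Pool.Agent.VF

universe u

open Pool.Agent.PC Pool.Agent.QS Polynomial

/-- Division in an integrally closed domain. -/
theorem NSP_div (D : Type u) [CommRing D] [IsDomain D] [IsIntegrallyClosed D] (r s : D) (hs : s ≠ 0) (N : ℕ)
    (a : ℕ → D) (h : r ^ N + ∑ i ∈ Finset.range N, a i * r ^ i * s ^ (N - i) = 0) : ∃ y, r = y * s := by
  let L := FractionRing D
  have hs' : algebraMap D L s ≠ 0 := by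
    rw [Ne, map_eq_zero_iff _ (IsFractionRing.injective D L)]
    exact hs
  let x : L := algebraMap D L r / algebraMap D L s
  have hx : IsIntegral D x := by
    refine ⟨X ^ N + ∑ i ∈ Finset.range N, C (a i) * X ^ i, ?_, ?_⟩
    · refine Polynomial.monic_X_pow_add ?_
      refine lt_of_le_of_lt (Polynomial.degree_sum_le _ _) ?_
      rw [Finset.sup_lt_iff (by exact WithBot.bot_lt_coe N)]
      intro i hi
      refine lt_of_le_of_lt (Polynomial.degree_C_mul_X_pow_le i (a i)) ?_
      exact_mod_cast Finset.mem_range.1 hi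
    · rw [Polynomial.eval₂_add, Polynomial.eval₂_X_pow, Polynomial.eval₂_finsetSum]
      have h1 : algebraMap D L (r ^ N + ∑ i ∈ Finset.range N, a i * r ^ i * s ^ (N - i)) = 0 := by
        rw [h, map_zero]
      rw [map_add, map_sum, map_pow] at h1
      have h2 : (x ^ N + ∑ i ∈ Finset.range N, eval₂ (algebraMap D L) x (C (a i) * X ^ i)) *
          algebraMap D L s ^ N = 0 := by
        rw [← h1, add_mul, Finset.sum_mul]
        congr 1
        · rw [← mul_pow, div_mul_cancel₀ _ hs']
        · refine Finset.sum_congr rfl fun i hi => ?_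
          have hi' : i < N := Finset.mem_range.1 hi
          rw [Polynomial.eval₂_mul, Polynomial.eval₂_C, Polynomial.eval₂_X_pow, map_mul, map_mul, map_pow,
            map_pow, mul_assoc, mul_assoc]
          congr 1
          have h3 : algebraMap D L s ^ N = algebraMap D L s ^ i * algebraMap D L s ^ (N - i) := by
            rw [← pow_add]
            congr 1
            omega
          rw [h3, ← mul_assoc, ← mul_pow, div_mul_cancel₀ _ hs']
      exact (mul_eq_zero.1 h2).resolve_right (pow_ne_zero _ hs')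
  obtain ⟨y, hy⟩ := IsIntegrallyClosed.algebraMap_eq_of_integral hx
  refine ⟨y, ?_⟩
  apply IsFractionRing.injective D L
  rw [map_mul, hy, div_mul_cancel₀ _ hs']

theorem NSP (hNFX : NFX_stmt.{u}) (hSLF : SLF_stmt.{u}) (hPLF : PLF_stmt.{u}) (hDMF : DMF_stmt.{u})
    (hCORE : QS.CORE_stmt.{u}) : NSP_stmt.{u} := by
  intro k R A F K _ _ _ _ _ _ _ _ _ _ _ _ _ _ _ _ _ _ _ _ _ _ _ _ _ _ _ _ _ _ n p _ _ hF x hx hn hnp
    S B hplt Q hQ hns r s hSQ hsS hint
  have hcharK : CharP K p := charP_of_injective_algebraMap (algebraMap k K).injective p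
  obtain ⟨δ, u, f, hsl⟩ := hNFX k A F K Q hQ hns
  obtain ⟨h, hh⟩ := hF.1 f
  have hp0 : 0 < p := (Fact.out : p.Prime).pos
  have hhQ : h ∉ Q.comap (algebraMap R A) := by
    rw [Ideal.mem_comap, hh]
    exact fun h' => hsl.1 (hQ.mem_of_pow_mem p h')
  have hhS : h ∉ S := fun h' => hhQ (hSQ h')
  have hh0 : h ≠ 0 := by
    rintro rfl
    exact hhS S.zero_mem
  have hhF : IsUnit (algebraMap R F h) := by
    rw [isUnit_iff_ne_zero, Ne, map_eq_zero_iff _ (IsFractionRing.injective R F)]
    exact hh0
  have hSp : S.IsPrime := hplt.1.1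
  -- the localisation
  let R' := Localization.Away h
  let _ : Algebra R' F := (IsLocalization.Away.lift (S := R') h hhF).toAlgebra
  have htower : ∀ y : R, algebraMap R' F (algebraMap R R' y) = algebraMap R F y := fun y =>
    IsLocalization.Away.lift_eq h hhF y
  have _ : IsScalarTower R R' F := IsScalarTower.of_algebraMap_eq fun y => (htower y).symm
  have hle : Submonoid.powers h ≤ nonZeroDivisors R :=
    powers_le_nonZeroDivisors_of_noZeroDivisors hh0
  have _ : IsDomain R' := IsLocalization.isDomain_of_le_nonZeroDivisors R' hle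
  have _ : IsFractionRing R' F :=
    IsFractionRing.isFractionRing_of_isDomain_of_isLocalization (Submonoid.powers h) R' F
  have _ : IsScalarTower k R' F := IsScalarTower.of_algebraMap_eq fun c => by
    rw [IsScalarTower.algebraMap_apply k R R', htower, ← IsScalarTower.algebraMap_apply k R F]
  have hsm : Algebra.Smooth k R' := hSLF k R A F K p hF Q δ u f hsl h hh0 hh R'
  have hdim : ringKrullDim R' = n := hDMF k R' F n x hx
  have hplt' := hPLF k R R' F h n S B hhS hplt
  -- the trivial group
  let _ : MulSemiringAction PUnit.{u + 1} R' :=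
    { smul := fun _ y => y
      one_smul := fun _ => rfl
      mul_smul := fun _ _ _ => rfl
      smul_zero := fun _ => rfl
      smul_add := fun _ _ _ => rfl
      smul_one := fun _ => rfl
      smul_mul := fun _ _ _ => rfl }
  have hsmul : ∀ (g : PUnit.{u + 1}) (y : R'), g • y = y := fun _ _ => rfl
  have _ : SMulCommClass PUnit.{u + 1} k R' := ⟨fun _ _ _ => rfl⟩
  have _ : SMulCommClass PUnit.{u + 1} R' R' := ⟨fun _ _ _ => rfl⟩
  have _ : Algebra.IsInvariant R' R' PUnit.{u + 1} := ⟨fun b _ => ⟨b, rfl⟩⟩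
  have hic := hCORE k R' R' F F PUnit.{u + 1} n p hn hnp hdim
    (fun g hg => absurd (Subsingleton.elim g 1) hg) (S.map (algebraMap R R'))
    (fun P => B (P.comap (algebraMap R R'))) hplt'
  -- division
  have hdisj : Disjoint (Submonoid.powers h : Set R) (S : Set R) := by
    rw [Set.disjoint_left]
    rintro y ⟨N, rfl⟩ hy
    exact hhS (hSp.mem_of_pow_mem N hy)
  have hS'p : (S.map (algebraMap R R')).IsPrime :=
    IsLocalization.isPrime_of_isPrime_disjoint (Submonoid.powers h) R' S hSp hdisj
  have hcom : (S.map (algebraMap R R')).comap (algebraMap R R') = S :=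
    IsLocalization.under_map_of_isPrime_disjoint (Submonoid.powers h) R' hSp hdisj
  have _ : IsDomain (R' ⧸ S.map (algebraMap R R')) := Ideal.Quotient.isDomain _
  obtain ⟨N, a, hN, heq⟩ := hint
  let π : R →+* R' ⧸ S.map (algebraMap R R') := (Ideal.Quotient.mk _).comp (algebraMap R R')
  have hπ : ∀ y, π y = 0 ↔ y ∈ S := by
    intro y
    change Ideal.Quotient.mk _ (algebraMap R R' y) = 0 ↔ _
    rw [Ideal.Quotient.eq_zero_iff_mem, ← Ideal.mem_comap, hcom]
  have heq' := (hπ _).2 heq
  rw [map_add, map_pow, map_sum] at heq'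
  obtain ⟨y, hy⟩ := NSP_div _ (π r) (π s) (fun h0 => hsS ((hπ s).1 h0)) N (fun i => π (a i)) (by
    rw [← heq']
    congr 1
    refine Finset.sum_congr rfl fun i _ => ?_
    rw [map_mul, map_mul, map_pow, map_pow])
  obtain ⟨y, rfl⟩ := Ideal.Quotient.mk_surjective y
  have h1 : algebraMap R R' r - y * algebraMap R R' s ∈ S.map (algebraMap R R') := by
    rw [← Ideal.Quotient.eq, map_mul]
    exact hy
  have h2 : algebraMap R R' r ∈ (Ideal.span {s} ⊔ S).map (algebraMap R R') := by
    have h3 : y * algebraMap R R' s ∈ (Ideal.span {s} ⊔ S).map (algebraMap R R') :=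
      Ideal.mul_mem_left _ _ (Ideal.mem_map_of_mem _ (Ideal.mem_sup_left (Ideal.mem_span_singleton_self s)))
    have h4 := Ideal.add_mem _ (Ideal.map_mono le_sup_right h1) h3
    rwa [sub_add_cancel] at h4
  rw [IsLocalization.mem_map_algebraMap_iff (Submonoid.powers h)] at h2
  obtain ⟨⟨⟨c, hc⟩, ⟨w, M, rfl⟩⟩, h5⟩ := h2
  refine ⟨h ^ M, ?_, ?_⟩
  · intro h6
    exact hhQ ((Ideal.IsPrime.comap (algebraMap R A) (K := Q)).mem_of_pow_mem M h6)
  · have h6 : r * h ^ M = c := by
      apply IsLocalization.injective R' hle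
      rw [map_mul]
      exact h5
    rw [mul_comm, h6]
    exact hc

end Pool.Agent.VF
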