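import Pool.Agent.helper51.VF.SpecC

/-!
# Project vf, row PLF: localisation of a plt pair
-/

set_option autoImplicit false

namespace Pool.Agent.VF

universe u

open Pool.Agent.PC Pool.Agent.QS

theorem PLF : PLF_stmt.{u} := by
  intro k R R' F _ _ _ _ _ _ _ _ _ _ _ _ _ _ _ _ _ h _ n S B hhS hplt
  classical
  obtain ⟨⟨hSp, hSh, hBS, hB01, hfin⟩, ω, μ, hω, hμ, hM⟩ := hplt
  have hdisj : Disjoint (Submonoid.powers h : Set R) (S : Set R) := by
    rw [Set.disjoint_left]
    rintro y ⟨N, rfl⟩ hy
    exact hhS (hSp.mem_of_pow_mem N hy)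
  have hcom : (S.map (algebraMap R R')).comap (algebraMap R R') = S :=
    IsLocalization.under_map_of_isPrime_disjoint (Submonoid.powers h) R' hSp hdisj
  have hht : ∀ J : Ideal R', (J.comap (algebraMap R R')).height = J.height := fun J =>
    IsLocalization.height_under (Submonoid.powers h) J
  have hmc : ∀ J : Ideal R', (J.comap (algebraMap R R')).map (algebraMap R R') = J := fun J =>
    IsLocalization.map_under (Submonoid.powers h) R' J
  have htower : ∀ y : R, algebraMap R' F (algebraMap R R' y) = algebraMap R F y := fun y =>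
    (IsScalarTower.algebraMap_apply R R' F y).symm
  have hne : ∀ y : R, y ≠ 0 → algebraMap R F y ≠ 0 := by
    intro y hy
    rw [Ne, map_eq_zero_iff _ (IsFractionRing.injective R F)]
    exact hy
  have hunit : IsUnit (algebraMap R R' h) := IsLocalization.Away.algebraMap_isUnit h
  have hh0 : h ≠ 0 := by
    rintro rfl
    exact hhS S.zero_mem
  have hhP : ∀ P : Ideal R', P.IsPrime → h ∉ P.comap (algebraMap R R') := by
    intro P hP h1
    exact hP.ne_top (Ideal.eq_top_of_isUnit_mem _ h1 hunit)
  refine ⟨⟨?_, ?_, ?_, fun P => hB01 _, ?_⟩, ω, μ, hω, hμ, ?_⟩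
  · exact IsLocalization.isPrime_of_isPrime_disjoint (Submonoid.powers h) R' S hSp hdisj
  · rw [← hht, hcom]
    exact hSh
  · change B ((S.map (algebraMap R R')).comap (algebraMap R R')) = 0
    rw [hcom]
    exact hBS
  · refine (hfin.preimage (f := fun J : Ideal R' => J.comap (algebraMap R R')) ?_).subset ?_
    · intro J _ J' _ hJ
      rw [← hmc J, ← hmc J']
      exact congrArg _ hJ
    · rintro P ⟨hP1, hP2, hP3⟩
      exact ⟨hP1.comap _, (hht P).trans hP2, hP3⟩
  · intro M' hM'
    have hjac : IsJacobsonRing R := isJacobsonRing_of_finiteType (A := k)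
    have hMmax : (M'.comap (algebraMap R R')).IsMaximal :=
      ((IsLocalization.isMaximal_iff_isMaximal_disjoint R' h M').1 hM').1
    obtain ⟨g, hg, hcar, hdis⟩ := hM _ hMmax
    refine ⟨g, hg, ?_, ?_⟩
    · intro P O hP hP1 hPM hloc
      have hPp : (P.comap (algebraMap R R')).IsPrime := hP.comap _
      have hloc' : IsLocAt (P.comap (algebraMap R R')) O := by
        intro x
        rw [hloc x]
        constructor
        · rintro ⟨a, s, hs, rfl⟩
          obtain ⟨⟨a0, ⟨_, i, rfl⟩⟩, ha⟩ := IsLocalization.surj (Submonoid.powers h) a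
          obtain ⟨⟨s0, ⟨_, j, rfl⟩⟩, hs'⟩ := IsLocalization.surj (Submonoid.powers h) s
          simp only at ha hs'
          have hs0 : s0 ∉ P.comap (algebraMap R R') := by
            intro h1
            rw [Ideal.mem_comap, ← hs'] at h1
            rcases hP.mem_or_mem h1 with h2 | h2
            · exact hs h2
            · rw [map_pow] at h2
              exact hhP P hP (hP.mem_of_pow_mem j h2)
          refine ⟨a0 * h ^ j, s0 * h ^ i, ?_, ?_⟩
          · exact hPp.mul_notMem hs0 fun h1 => hhP P hP (hPp.mem_of_pow_mem i h1)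
          · have h1 := congrArg (algebraMap R' F) ha
            have h2 := congrArg (algebraMap R' F) hs'
            rw [map_mul, htower, htower] at h1 h2
            have hi := hne (h ^ i) (pow_ne_zero _ hh0)
            have hj := hne (h ^ j) (pow_ne_zero _ hh0)
            rw [map_mul, map_mul, ← h1, ← h2]
            by_cases hs1 : algebraMap R' F s = 0
            · rw [hs1]
              simp
            · field_simp
        · rintro ⟨a, s, hs, rfl⟩
          exact ⟨algebraMap R R' a, algebraMap R R' s, hs, by rw [htower, htower]⟩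
      obtain ⟨s, t, h1, h2, h3⟩ := hcar (P.comap (algebraMap R R')) O hPp
        ((hht P).trans hP1) (Ideal.comap_mono hPM) hloc'
      refine ⟨s, t, h1, h2, ?_⟩
      have h4 : (P = S.map (algebraMap R R')) ↔ (P.comap (algebraMap R R') = S) := by
        constructor
        · intro h5
          rw [h5]
          exact hcom
        · intro h5
          rw [← h5, hmc]
      by_cases h5 : P = S.map (algebraMap R R')
      · rw [if_pos (h4.1 h5)] at h3
        rw [if_pos h5]
        exact h3
      · rw [if_neg (fun h6 => h5 (h4.2 h6))] at h3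
        rw [if_neg h5]
        exact h3
    · intro P O hdiv hcen hP2 hPM
      refine hdis (P.comap (algebraMap R R')) O hdiv ?_ (by rw [hht]; exact hP2) (Ideal.comap_mono hPM)
      intro r
      have h1 := hcen (algebraMap R R' r)
      rw [htower] at h1
      exact h1

end Pool.Agent.VF
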