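import Pool.Agent.helper51.VF.SpecA

/-!
# Project vf, row UNQ: independence of `T`
-/

set_option autoImplicit false

namespace Pool.Agent.VF

universe u

open Pool.Agent.PC Pool.Agent.QS

theorem UNQ (hEXP : EXP_stmt.{u}) (hDEX : DEX_stmt.{u}) : UNQ_stmt.{u} := by
  intro k F K _ _ _ _ _ _ _ p _ _ hfr hpow n D y hn hfin hdual δ T T' hT hT' l0 d f hl0
  obtain ⟨E', hE'⟩ := hDEX k F K p hfr hpow (T - T') (fun c g hg => by
    rw [Derivation.sub_apply, hT c g hg, hT' c g hg, sub_self])
  have h1 : ∀ i, T (f i) = T' (f i) + ∑ l, E' (y l) * D l (algebraMap F K (f i)) := by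
    intro i
    have h2 := hEXP k K n D y hn hfin hdual E' (algebraMap F K (f i))
    rw [hE', Derivation.sub_apply] at h2
    rw [← h2]
    ring
  have h3 : ∀ i, ∑ l, δ (y l) * D l (algebraMap F K (f i)) = 0 := by
    intro i
    have h2 := hEXP k K n D y hn hfin hdual (δ.restrictScalars k) (algebraMap F K (f i))
    have h4 : (δ.restrictScalars k) (algebraMap F K (f i)) = 0 := δ.map_algebraMap (f i)
    rw [h4] at h2
    exact h2.symm
  let M : Matrix (Fin n) (Fin n) K := Matrix.of fun i l => D l (algebraMap F K (f i))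
  have hM : M.det = 0 := by
    have h5 := Matrix.det_updateCol_sum M l0 (fun l => δ (y l))
    have h6 : (fun i => ∑ l, δ (y l) • M i l) = fun _ => 0 := by
      funext i
      exact h3 i
    rw [h6] at h5
    have h7 : (M.updateCol l0 fun _ => 0).det = 0 :=
      Matrix.det_eq_zero_of_column_eq_zero l0 fun i => by rw [Matrix.updateCol_self]
    rw [h7, smul_eq_mul] at h5
    exact (mul_eq_zero.1 h5.symm).resolve_left hl0
  have h8 : ∀ t : Fin n → K, (Matrix.of fun i l => if l = l0 then t i else D l (algebraMap F K (f i))) =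
      M.updateCol l0 t := by
    intro t
    ext i l
    rw [Matrix.updateCol_apply]
    rfl
  unfold JF
  congr 1
  rw [h8 (fun i => T (f i)), h8 (fun i => T' (f i))]
  have h9 : (fun i => T (f i)) = (fun i => T' (f i)) + fun i => ∑ l, E' (y l) • M i l := by
    funext i
    exact h1 i
  rw [h9, Matrix.det_updateCol_add, Matrix.det_updateCol_sum, hM, smul_zero, add_zero]

end Pool.Agent.VF
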