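import Pool.Agent.helper51.VF.SpecB
import Pool.Agent.helper79.QS.VBD

/-!
# Project vf, row VBF (after VBD of project qs, helper79)
-/

set_option autoImplicit false

namespace Pool.Agent.VF

open Pool.Agent.PC Pool.Agent.QS MvPolynomial

universe u

theorem VBF_chain {k F M : Type u} [Field k] [Field F] [Algebra k F] [AddCommGroup M] [Module k M] [Module F M]
    {n : ℕ} (D : Derivation k F M) (a : Fin n → F) (P : MvPolynomial (Fin n) k) :
    D (aeval a P) = ∑ l, aeval a (pderiv l P) • D (a l) := by
  induction P using MvPolynomial.induction_on with
  | C c =>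
    rw [aeval_C, Derivation.map_algebraMap]
    simp
  | add p q hp hq =>
    rw [map_add, map_add, hp, hq, ← Finset.sum_add_distrib]
    refine Finset.sum_congr rfl fun l _ => ?_
    rw [map_add, map_add, add_smul]
  | mul_X p i hp =>
    rw [map_mul, aeval_X, D.leibniz, hp, Finset.smul_sum]
    have e : ∀ l, aeval a (pderiv l (p * X i)) • D (a l) =
        a i • (aeval a (pderiv l p) • D (a l)) + (if i = l then aeval a p • D (a i) else 0) := by
      intro l
      rw [pderiv_mul, map_add, map_mul, map_mul, aeval_X]
      by_cases hil : i = l
      · subst hil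
        rw [pderiv_X_self, map_one, if_pos rfl, add_smul, smul_smul, mul_one, mul_comm (a i)]
      · rw [pderiv_X_of_ne hil, map_zero, if_neg hil, mul_zero, add_zero, add_zero, smul_smul, mul_comm (a i)]
    rw [Finset.sum_congr rfl (fun l _ => e l), Finset.sum_add_distrib, Finset.sum_ite_eq,
      if_pos (Finset.mem_univ i), add_comm]

theorem VBF_dd {k F : Type u} [Field k] [Field F] [Algebra k F] {n : ℕ} (a : Fin n → F)
    (P : MvPolynomial (Fin n) k) (i : Fin n) :
    dd k (Function.update a i (aeval a P)) = aeval a (pderiv i P) • dd k a := by
  classical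
  unfold dd
  have e : (fun l => KaehlerDifferential.D k F (Function.update a i (aeval a P) l)) =
      Function.update (fun l => KaehlerDifferential.D k F (a l)) i
        (∑ l, aeval a (pderiv l P) • KaehlerDifferential.D k F (a l)) := by
    funext l
    by_cases hl : l = i
    · subst hl
      rw [Function.update_self, Function.update_self, VBF_chain]
    · rw [Function.update_of_ne hl, Function.update_of_ne hl]
  rw [e, AlternatingMap.map_update_sum, Finset.sum_eq_single i]
  · rw [AlternatingMap.map_update_smul, Function.update_eq_self]
  · intro l _ hl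
    rw [AlternatingMap.map_update_smul]
    have h0 : exteriorPower.ιMulti F n (Function.update (fun l => KaehlerDifferential.D k F (a l)) i
        (KaehlerDifferential.D k F (a l))) = 0 := by
      refine AlternatingMap.map_eq_zero_of_eq _ _ (i := i) (j := l) ?_ (Ne.symm hl)
      rw [Function.update_self, Function.update_of_ne hl]
    rw [h0, smul_zero]
  · intro h
    exact absurd (Finset.mem_univ i) h

theorem VBF : VBF_stmt.{u} := by
  intro k F K _ _ _ _ _ _ _ _ _ n p _ _ x hx Ψ v hv hk c hc e he a ha
  classical
  obtain ⟨P, i, hP1, hg0, hg1⟩ := VBD_min p hv hk (fun i => algebraMap F K (a i)) ha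
    (VBD_exists x hx hv hk a ha)
  have e1 : ∀ Q : MvPolynomial (Fin n) k, algebraMap F K (aeval a Q) =
      aeval (fun i => algebraMap F K (a i)) Q := by
    intro Q
    rw [← aeval_algebraMap_apply]
    rfl
  have hJ : Ψ (dd k (Function.update a i (aeval a P))) =
      aeval (fun i => algebraMap F K (a i)) (pderiv i P) * Ψ (dd k a) := by
    rw [VBF_dd, map_smul, Algebra.smul_def, e1]
  have h1 : Ge v (e + c) (Ψ (dd k (Function.update a i (aeval a P)))) := by
    by_cases h0 : ∀ l, Function.update a i (aeval a P) l ≠ 0
    · have h1 := hc _ h0
      have h2 := CON_ge_prod hv (Finset.univ : Finset (Fin n)) (fun l => if l = i then e else 0)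
        (fun l => algebraMap F K (Function.update a i (aeval a P) l)) (fun l _ => by
          by_cases hl : l = i
          · subst hl
            simp only [if_true, Function.update_self]
            have h3 := h0 l
            rw [Function.update_self] at h3
            right
            rw [← e1] at hP1
            have h4 := hP1.resolve_left ((map_ne_zero _).2 h3)
            exact he _ h3 (by omega)
          · simp only [hl, if_false, Function.update_of_ne hl]
            exact ha l)
      rw [Finset.sum_ite_eq' Finset.univ i, if_pos (Finset.mem_univ i)] at h2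
      have h3 := CON_ge_mul hv h2 h1
      have h4 : ∏ l, algebraMap F K (Function.update a i (aeval a P) l) ≠ 0 :=
        Finset.prod_ne_zero_iff.2 fun l _ => (map_ne_zero _).2 (h0 l)
      rwa [mul_div_cancel₀ _ h4] at h3
    · push Not at h0
      obtain ⟨l, hl⟩ := h0
      left
      have h5 : dd k (Function.update a i (aeval a P)) = 0 := by
        unfold dd
        refine AlternatingMap.map_coord_zero _ l ?_
        rw [hl, map_zero]
      rw [h5, map_zero]
  rw [hJ] at h1
  have h2 : Ge v 0 (aeval (fun i => algebraMap F K (a i)) (pderiv i P))⁻¹ := by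
    right
    rw [CON_inv hv _ hg0, hg1, neg_zero]
  have h3 := CON_ge_mul hv h2 h1
  rwa [zero_add, inv_mul_cancel_left₀ hg0] at h3

end Pool.Agent.VF
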