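import Pool.Agent.helper51.VF.SpecA
import Pool.Agent.helper16.PC.CONR
import Pool.Agent.helper13.PC.ASA

/-!
# Project vf, row WDD: values of the derivation
-/

set_option autoImplicit false

namespace Pool.Agent.VF

universe u

open Pool.Agent.PC Pool.Agent.QS

theorem WDD (hEXP : EXP_stmt.{u}) : WDD_stmt.{u} := by
  intro k F K _ _ _ _ _ _ _ n D y hn hfin hdual v w j δ hv hy hD hδ r b hb
  have h1 := hEXP k K n D y hn hfin hdual (δ.restrictScalars k) b
  have h2 : δ b = ∑ l, δ (y l) * D l b := h1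
  rw [h2]
  refine ASA_Gsum hv _ _ fun l _ => ?_
  have h3 := hD l b r hb
  have h4 : Ge v j ((y l)⁻¹ * δ (y l)) := by
    have h5 : Ge v (-w l) (y l)⁻¹ := by
      right
      rw [ASA_inv hv (hy l).1, (hy l).2]
    have h6 := ASA_Gmul hv h5 (hδ l)
    rwa [neg_add_cancel_left] at h6
  have h7 := ASA_Gmul hv h4 h3
  have h8 : (y l)⁻¹ * δ (y l) * (y l * D l b) = δ (y l) * D l b := by
    have := (hy l).1
    field_simp
  rw [h8, add_comm j r] at h7
  exact h7

end Pool.Agent.VF
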