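import Pool.Agent.helper89.VF.FDR
import Pool.Agent.helper92.VF.PCL
import Pool.Agent.helper24.VF.SLC
import Pool.Agent.helper89.VF.EXP
import Pool.Agent.helper30.VF.DEX
import Pool.Agent.helper51.VF.UNQ
import Pool.Agent.helper89.VF.IND
import Pool.Agent.helper9.VF.JUB
import Pool.Agent.helper89.VF.PSA
import Pool.Agent.helper40.VF.NVF
import Pool.Agent.helper29.VF.PSF
import Pool.Agent.helper24.VF.HSD
import Pool.Agent.helper24.VF.MNT
import Pool.Agent.helper99.VF.VCL
import Pool.Agent.helper32.VF.TVB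
import Pool.Agent.helper68.VF.TEX
import Pool.Agent.helper51.VF.WDD
import Pool.Agent.helper93.VF.WLF
import Pool.Agent.helper55.VF.LGV
import Pool.Agent.helper51.VF.VBF
import Pool.Agent.helper51.VF.DIF
import Pool.Agent.helper51.VF.EHF
import Pool.Agent.helper51.VF.DSF
import Pool.Agent.helper54.VF.PLV
import Pool.Agent.helper52.VF.CAP
import Pool.Agent.helper68.VF.HOM
import Pool.Agent.helper71.VF.FTR
import Pool.Agent.helper51.VF.EIP
import Pool.Agent.helper71.VF.ETF
import Pool.Agent.helper3.VF.ETK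
import Pool.Agent.helper52.VF.GHF
import Pool.Agent.helper93.VF.RPF
import Pool.Agent.helper29.VF.SAT
import Pool.Agent.helper39.VF.GRG
import Pool.Agent.helper2.VF.NFX
import Pool.Agent.helper40.VF.FLD
import Pool.Agent.helper71.VF.NLP
import Pool.Agent.helper92.VF.IVT
import Pool.Agent.helper32.VF.RNF
import Pool.Agent.helper68.VF.TRF
import Pool.Agent.helper64.VF.RSP
import Pool.Agent.helper41.VF.GTR
import Pool.Agent.helper3.VF.RHO
import Pool.Agent.helper3.VF.SGP
import Pool.Agent.helper51.VF.FSD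
import Pool.Agent.helper75.VF.SLF
import Pool.Agent.helper51.VF.PLF
import Pool.Agent.helper99.VF.DMF
import Pool.Agent.helper51.VF.NSP
import Pool.Agent.helper74.VF.ASP
import Pool.Agent.helper9.VF.ICQ
import Pool.Agent.helper78.VF.CRF
import Pool.Agent.helper75.VF.MNF
import Pool.Agent.helper51.QS.All

/-!
# Project vf (MP_74cfa5_ag): assembly of all rows
-/

set_option autoImplicit false

namespace Pool.Agent.VF

open Pool.Agent.PC Pool.Agent.QS

universe u

theorem all_FDR : FDR_stmt.{u} := FDR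

theorem all_PCL : PCL_stmt.{u} := PCL all_FDR

theorem all_SLC : SLC_stmt.{u} := SLC

theorem all_EXP : EXP_stmt.{u} := EXP

theorem all_DEX : DEX_stmt.{u} := DEX

theorem all_UNQ : UNQ_stmt.{u} := UNQ all_EXP all_DEX

theorem all_IND : IND_stmt.{u} := IND

theorem all_JUB : JUB_stmt.{u} := JUB all_EXP

theorem all_PSA : PSA_stmt.{u} := PSA

theorem all_NVF : NVF_stmt.{u} := NVF all_EXP all_JUB

theorem all_PSF : PSF_stmt.{u} := PSF all_EXP all_UNQ all_IND all_PSA all_NVF

theorem all_HSD : HSD_stmt.{u} := HSD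

theorem all_MNT : MNT_stmt.{u} := MNT

theorem all_VCL : VCL_stmt.{u} := VCL

theorem all_TVB : TVB_stmt.{u} := TVB QS.all_YWV all_MNT all_VCL

theorem all_TEX : TEX_stmt.{u} := TEX

theorem all_WDD : WDD_stmt.{u} := WDD all_EXP

theorem all_WLF : WLF_stmt.{u} := WLF

theorem all_LGV : LGV_stmt.{u} := LGV all_EXP all_PSF all_HSD all_TVB all_TEX all_WDD all_WLF QS.all_YWV QS.all_WDR

theorem all_VBF : VBF_stmt.{u} := VBF

theorem all_DIF : DIF_stmt.{u} := DIF all_VBF

theorem all_EHF : EHF_stmt.{u} := EHF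

theorem all_DSF : DSF_stmt.{u} := DSF QS.all_DVF all_DIF QS.all_CEH

theorem all_PLV : PLV_stmt.{u} := PLV all_LGV all_DSF QS.all_DUA QS.all_PYY QS.all_YWV QS.all_WTR

theorem all_CAP : CAP_stmt.{u} := CAP

theorem all_HOM : HOM_stmt.{u} := HOM

theorem all_FTR : FTR_stmt.{u} := FTR

theorem all_EIP : EIP_stmt.{u} := EIP

theorem all_ETF : ETF_stmt.{u} := ETF all_FDR all_PCL all_SLC

theorem all_ETK : ETK_stmt.{u} := ETK all_EXP all_JUB all_ETF

theorem all_GHF : GHF_stmt.{u} := GHF QS.all_LRF all_EHF all_ETK all_EIP all_HOM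

theorem all_RPF : RPF_stmt.{u} := RPF QS.all_LVQ QS.all_TEQ all_GHF all_HOM

theorem all_SAT : SAT_stmt.{u} := SAT all_EXP

theorem all_GRG : GRG_stmt.{u} := GRG

theorem all_NFX : NFX_stmt.{u} := NFX

theorem all_FLD : FLD_stmt.{u} := FLD

theorem all_NLP : NLP_stmt.{u} := NLP all_FLD all_PLV QS.all_LCF QS.all_WVL QS.all_YWV

theorem all_IVT : IVT_stmt.{u} := IVT all_PLV QS.all_LCF QS.all_WVL QS.all_YWV

theorem all_RNF : RNF_stmt.{u} := RNF all_PLV QS.all_WVL QS.all_YWV

theorem all_TRF : TRF_stmt.{u} := TRF all_FDR all_SAT QS.all_DUA QS.all_GEN all_RNF QS.all_REG QS.all_LCF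

theorem all_RSP : RSP_stmt.{u} := RSP

theorem all_GTR : GTR_stmt.{u} := GTR QS.all_UNM QS.all_DV1 all_RSP

theorem all_RHO : RHO_stmt.{u} := RHO all_FDR all_CAP all_HOM

theorem all_SGP : SGP_stmt.{u} := SGP all_FDR all_PCL all_HOM all_SAT all_GRG all_NLP all_IVT all_TRF all_GTR all_RHO QS.all_LCF QS.all_DUA

theorem all_FSD : FSD_stmt.{u} := FSD

theorem all_SLF : SLF_stmt.{u} := SLF all_FDR all_PCL all_SLC all_CAP all_FTR all_FSD

theorem all_PLF : PLF_stmt.{u} := PLF

theorem all_DMF : DMF_stmt.{u} := DMF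

theorem all_NSP : NSP_stmt.{u} := NSP all_NFX all_SLF all_PLF all_DMF QS.all_CORE

theorem all_ASP : ASP_stmt.{u} := ASP

theorem all_ICQ : ICQ_stmt.{u} := ICQ

theorem all_CRF : CRF_stmt.{u} := CRF QS.all_LCF QS.all_NRA QS.all_KDI QS.all_TBF all_HOM all_FTR all_RPF all_NSP all_SGP all_ASP all_ICQ

theorem all_MNF : MNF_stmt.{u} := MNF all_CRF all_HOM QS.all_SML QS.all_LCF QS.all_KDI QS.all_TBF all_FTR

end Pool.Agent.VF
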