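import Pool.Agent.helper51.QS.SpecC

/-!
# Project vf (MP_74cfa5_ag, plt centres on quotients by p-closed vector fields): definitions for the rows

`K ⊇ F ⊇ K^p` function fields, `[K : F] = p`, `A` smooth with field of fractions `K`, `R = A ∩ F`.
The definitions `Form`, `dd`, `DVal`, `Ge`, `JJ`, `Plt` are in `Pool/Agent/helper51/PC`, the definitions `Coord`, `Dual`,
`Taylor`, `IsW`, `Restr`, `LocV`, `Inn`, `Eqn`, `Tri` in `Pool/Agent/helper51/QS/Defs.lean`.
-/

set_option autoImplicit false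

namespace Pool.Agent.VF

open Pool.Agent.PC Pool.Agent.QS

universe u

section loc

variable {A K : Type u} [CommRing A] [Field K] [Algebra A K]

/-- `x` lies in the local ring `A_Q`. -/
def Loc (Q : Ideal A) (x : K) : Prop :=
  ∃ a s : A, s ∉ Q ∧ x = algebraMap A K a / algebraMap A K s

/-- `x` lies in `J A_Q`. -/
def LocI (Q J : Ideal A) (x : K) : Prop :=
  ∃ a s : A, s ∉ Q ∧ a ∈ J ∧ x = algebraMap A K a / algebraMap A K s

end loc

/-- `A ^ p ⊆ R` and `[K : F] = p`. -/
def Fol (p : ℕ) (R A F K : Type u) [CommRing R] [CommRing A] [Algebra R A] [Field F] [Field K]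
    [Algebra F K] : Prop :=
  (∀ a : A, ∃ r : R, algebraMap R A r = a ^ p) ∧ Module.finrank F K = p

section fol

variable {A F K : Type u} [CommRing A] [Field F] [Field K] [Algebra A K] [Algebra F K]

/-- `δ` maps `A` into `Q A_Q`. -/
def Fix (Q : Ideal A) (δ : Derivation F K K) : Prop :=
  ∀ a : A, LocI Q Q (δ (algebraMap A K a))

/-- `δ` maps `A` into `A_m`, and it is not divisible along any prime divisor through `m`. -/
def Sat (m : Ideal A) (δ : Derivation F K K) : Prop :=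
  (∀ a : A, Loc m (δ (algebraMap A K a))) ∧
  ∀ Q : Ideal A, Q.IsPrime → Q.height = 1 → Q ≤ m → ∃ a : A, ¬ LocI Q Q (δ (algebraMap A K a))

/-- `Q` is singular: every `F`-derivation of `K` which maps `A` into `A_Q` maps `A` into `Q A_Q`. -/
def Sing (F K : Type u) [Field F] [Field K] [Algebra A K] [Algebra F K] (Q : Ideal A) : Prop :=
  ∀ δ : Derivation F K K, (∀ a : A, Loc Q (δ (algebraMap A K a))) → Fix Q δ

/-- `δ ^ p = g δ`. -/
def Pcl (p : ℕ) (δ : Derivation F K K) (g : K) : Prop := ∀ x : K, (⇑δ)^[p] x = g * δ x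

/-- `δ u = 1`, and `f δ` maps `A` into `A`, where `f` is not in `Q`. -/
def Slice (Q : Ideal A) (δ : Derivation F K K) (u f : A) : Prop :=
  f ∉ Q ∧ δ (algebraMap A K u) = 1 ∧
  ∀ a : A, ∃ b : A, algebraMap A K f * δ (algebraMap A K a) = algebraMap A K b

/-- `∑ (- u) ^ l δ ^ l x / l!`, the projection to the constants of `δ` if `δ u = 1` and `δ ^ p = 0`. -/
noncomputable def EE (p : ℕ) (δ : Derivation F K K) (u x : K) : K :=
  ∑ l ∈ Finset.range p, ((l.factorial : ℕ) : K)⁻¹ * (-u) ^ l * (⇑δ)^[l] x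

end fol

section tau

variable {k A F K : Type u} [CommRing k] [CommRing A] [Algebra k A] [Field F] [Field K] [Algebra A K] [Algebra F K]
  {n : ℕ}

/-- `a ↦ ∑ i < p, δ ^ i a s ^ i / i! + τ a s ^ p` is a homomorphism modulo `s ^ (p + 1)`, with `τ (y l) = 0`. -/
def IsTau (k : Type u) [CommRing k] [Algebra k A] (p : ℕ) (m : Ideal A) (δ : Derivation F K K) (y : Fin n → A)
    (τ : A → K) : Prop :=
  (∀ a b, τ (a + b) = τ a + τ b) ∧
  (∀ a b, τ (a * b) = algebraMap A K a * τ b + algebraMap A K b * τ a +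
    ∑ i ∈ Finset.Ico 1 p, ((i.factorial * (p - i).factorial : ℕ) : K)⁻¹ *
      ((⇑δ)^[i] (algebraMap A K a) * (⇑δ)^[p - i] (algebraMap A K b))) ∧
  (∀ c : k, τ (algebraMap k A c) = 0) ∧ (∀ a, Loc m (τ a)) ∧ (∀ l, τ (y l) = 0) ∧
  ∀ a, τ (a ^ p) = δ (algebraMap A K a) ^ p

end tau

section psi

variable {k F K : Type u} [Field k] [Field F] [Field K] [Algebra k F] [Algebra k K]
  [Algebra F K] {n : ℕ}

/-- `T` is a derivation on `F` with `T (c ^ p) = (δ c) ^ p` for all `c` in `K`. -/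
def Frob (p : ℕ) (δ : Derivation F K K) (T : Derivation k F K) : Prop :=
  ∀ (c : K) (f : F), algebraMap F K f = c ^ p → T f = δ c ^ p

/-- `1/d` times the determinant of the matrix with the entries `D_l f_i`, the column `l0` replaced by `T f_i`. -/
noncomputable def JF (T : Derivation k F K) (D : Fin n → Derivation k K K) (l0 : Fin n) (d : K)
    (f : Fin n → F) : K :=
  d⁻¹ * (Matrix.of fun i l => if l = l0 then T (f i) else D l (algebraMap F K (f i))).det

/-- `Ψ` is the map from forms of degree `n` on `F` to `K` given by the functions `JF`. -/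
def IsPsF [IsScalarTower k F K] (p : ℕ) (δ : Derivation F K K) (D : Fin n → Derivation k K K)
    (y : Fin n → K) (Ψ : Form k F n →ₗ[F] K) : Prop :=
  (∀ (T : Derivation k F K) (l0 : Fin n), Frob p δ T → δ (y l0) ≠ 0 →
    ∀ f : Fin n → F, Ψ (dd k f) = JF T D l0 (δ (y l0)) f) ∧
  (∀ ξ, Ψ ξ = 0 → ξ = 0) ∧ ∀ ω ξ : Form k F n, ω ≠ 0 → ∃ x : F, ξ = x • ω

/-- The logarithmic values of `Ψ` have value at least `c`. -/
def LogPs [IsScalarTower k F K] (v : K → ℤ) (Ψ : Form k F n →ₗ[F] K) (c : ℤ) : Prop :=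
  ∀ f : Fin n → F, (∀ i, f i ≠ 0) → Ge v c (Ψ (dd k f) / ∏ i, algebraMap F K (f i))

end psi

section disc

variable {k R A F K : Type u} [Field k] [CommRing R] [CommRing A] [Algebra R A] [Field F] [Field K]
  [Algebra k F] [Algebra k K] [Algebra A K] [Algebra F K] [IsScalarTower k F K] [Algebra R F] {n : ℕ}

/-- `g / Ψ ω ^ μ` is divisible by `t ^ μ` in `A_m`, and by `t ^ (p μ)` if the divisor `t = 0` is not invariant. -/
def Disc (p : ℕ) (m : Ideal A) (δ : Derivation F K K) (ω : Form k F n) (μ : ℕ) (g : F) (t : A) : Prop :=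
  ∀ (D : Fin n → Derivation k K K) (y : Fin n → A) (T : Derivation k F K), Frob p δ T →
    (∀ i j, D i (algebraMap A K (y j)) = if i = j then 1 else 0) →
    ∀ Ψ : Form k F n →ₗ[F] K, IsPsF p δ D (fun i => algebraMap A K (y i)) Ψ →
    (∃ u s : A, s ∉ m ∧ algebraMap F K g / Ψ ω ^ μ =
      algebraMap A K t ^ μ * algebraMap A K u / algebraMap A K s) ∧
    (¬ LocI m (Ideal.span {t}) (δ (algebraMap A K t)) → ∃ u s : A, s ∉ m ∧
      algebraMap F K g / Ψ ω ^ μ = algebraMap A K t ^ (p * μ) * algebraMap A K u / algebraMap A K s)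

/-- The local data of the pair at all closed points of `S`. -/
def PltAt (R : Type u) [CommRing R] [Algebra R A] [Algebra R F] (K : Type u) [Field K] [Algebra k K] [Algebra A K]
    [Algebra F K] [IsScalarTower k F K] (p : ℕ) (S : Ideal R) (ω : Form k F n) (μ : ℕ) : Prop :=
  ∀ m : Ideal A, m.IsMaximal → S ≤ m.comap (algebraMap R A) → ∃ (g : F) (t : A), g ≠ 0 ∧ t ≠ 0 ∧
    DiscrAt R ω μ (m.comap (algebraMap R A)) g ∧ Eqn m (S.map (algebraMap R A)).radical t ∧
    ∀ δ : Derivation F K K, δ ≠ 0 → Sat m δ → Disc p m δ ω μ g t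

end disc

end Pool.Agent.VF
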