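import Pool.Agent.helper51.VF.SpecC

/-!
# Project vf, row FSD: descent of formal smoothness along `R → R[U] / (U ^ p - α)`
-/

set_option autoImplicit false

namespace Pool.Agent.VF

universe u

open Polynomial

section

variable {B : Type u} [CommRing B]

theorem FSD_monic {p : ℕ} (hp : 0 < p) (β : B) : (X ^ p - C β : B[X]).Monic :=
  monic_X_pow_sub_C β hp.ne'

/-- The coefficient of `U ^ 0`. -/
noncomputable def FSD_c {p : ℕ} (hp : 0 < p) (β : B) : AdjoinRoot (X ^ p - C β : B[X]) →ₗ[B] B :=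
  (Polynomial.lcoeff B 0).comp (AdjoinRoot.modByMonicHom (FSD_monic hp β))

theorem FSD_c_of {p : ℕ} (hp : 0 < p) (β b : B) :
    FSD_c hp β (AdjoinRoot.of (X ^ p - C β : B[X]) b) = b := by
  nontriviality B
  rw [← AdjoinRoot.mk_C, FSD_c, LinearMap.comp_apply, AdjoinRoot.modByMonicHom_mk,
    (Polynomial.modByMonic_eq_self_iff (FSD_monic hp β)).2, Polynomial.lcoeff_apply, Polynomial.coeff_C_zero]
  rw [Polynomial.degree_X_pow_sub_C hp]
  exact lt_of_le_of_lt Polynomial.degree_C_le (by exact_mod_cast hp)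

theorem FSD_c_mul {p : ℕ} (hp : 0 < p) (β b : B) (x : AdjoinRoot (X ^ p - C β : B[X])) :
    FSD_c hp β (AdjoinRoot.of (X ^ p - C β : B[X]) b * x) = b * FSD_c hp β x := by
  have : AdjoinRoot.of (X ^ p - C β : B[X]) b * x = b • x := by
    rw [Algebra.smul_def]; rfl
  rw [this, map_smul, smul_eq_mul]

theorem FSD_c_mem {p : ℕ} (hp : 0 < p) (β : B) (J : Ideal B) (x : AdjoinRoot (X ^ p - C β : B[X]))
    (hx : x ∈ J.map (AdjoinRoot.of (X ^ p - C β : B[X]))) : FSD_c hp β x ∈ J := by
  have key : ∀ b, FSD_c hp β (b * x) ∈ J := by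
    rw [Ideal.map] at hx
    induction hx using Submodule.span_induction with
    | mem y hy =>
      obtain ⟨j, hj, rfl⟩ := hy
      intro b
      rw [mul_comm, FSD_c_mul]
      exact J.mul_mem_right _ hj
    | zero => intro b; simp
    | add y z _ _ hy hz => intro b; rw [mul_add, map_add]; exact J.add_mem (hy b) (hz b)
    | smul a y _ hy => intro b; rw [smul_eq_mul, ← mul_assoc]; exact hy (b * a)
  simpa using key 1

theorem FSD_expand {p : ℕ} (hp : 0 < p) (β : B) (x : AdjoinRoot (X ^ p - C β : B[X])) :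
    ∃ r : Fin p → B, x = ∑ i, AdjoinRoot.of (X ^ p - C β : B[X]) (r i) *
      AdjoinRoot.root (X ^ p - C β : B[X]) ^ (i : ℕ) := by
  rcases subsingleton_or_nontrivial B with hB | hB
  · refine ⟨0, ?_⟩
    have : Subsingleton (AdjoinRoot (X ^ p - C β : B[X])) := by
      have : Subsingleton B[X] := inferInstance
      exact (AdjoinRoot.mk_surjective).subsingleton
    exact Subsingleton.elim _ _
  · have h1 := AdjoinRoot.mk_leftInverse (FSD_monic hp β) x
    set q := AdjoinRoot.modByMonicHom (FSD_monic hp β) x with hq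
    have hdeg : q.degree < (p : WithBot ℕ) := by
      obtain ⟨y, rfl⟩ := AdjoinRoot.mk_surjective x
      rw [hq, AdjoinRoot.modByMonicHom_mk, ← Polynomial.degree_X_pow_sub_C hp β]
      exact Polynomial.degree_modByMonic_lt _ (FSD_monic hp β)
    have hnat : q.natDegree < p := by
      rcases eq_or_ne q 0 with h0 | h0
      · rw [h0]; simpa using hp
      · exact (Polynomial.natDegree_lt_iff_degree_lt h0).2 hdeg
    refine ⟨fun i => q.coeff i, ?_⟩
    rw [← h1, Polynomial.as_sum_range' q p hnat, map_sum, ← Fin.sum_univ_eq_sum_range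
      (fun i => AdjoinRoot.mk (X ^ p - C β : B[X]) (monomial i (q.coeff i)))]
    refine Finset.sum_congr rfl fun i _ => ?_
    rw [← C_mul_X_pow_eq_monomial, map_mul, map_pow, AdjoinRoot.mk_C, AdjoinRoot.mk_X,
      ← Polynomial.as_sum_range' q p hnat]

end

theorem FSD : FSD_stmt.{u} := by
  intro k R A _ _ _ _ _ _ _ p u α hp hu hex huniq hA
  rw [Algebra.FormallySmooth.iff_comp_surjective]
  intro B _ _ J hJ φ
  -- the isomorphism
  let θ : AdjoinRoot (X ^ p - C α : R[X]) →ₐ[k] A :=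
    AdjoinRoot.liftAlgHom _ (IsScalarTower.toAlgHom k R A) u (by simp [hu])
  have hθof : ∀ r, θ (AdjoinRoot.of _ r) = algebraMap R A r := fun r =>
    AdjoinRoot.liftAlgHom_of _ _ _ _ r
  have hθroot : θ (AdjoinRoot.root _) = u := AdjoinRoot.liftAlgHom_root _ _ _ _
  have hbij : Function.Bijective θ := by
    constructor
    · rw [injective_iff_map_eq_zero]
      intro x hx
      obtain ⟨r, rfl⟩ := FSD_expand hp α x
      rw [map_sum] at hx
      have : r = 0 := by
        apply huniq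
        rw [← hx]
        refine Finset.sum_congr rfl fun i _ => ?_
        rw [map_mul, map_pow, hθof, hθroot]
      rw [this]
      simp
    · intro a
      obtain ⟨r, rfl⟩ := hex a
      refine ⟨∑ i, AdjoinRoot.of _ (r i) * AdjoinRoot.root _ ^ (i : ℕ), ?_⟩
      rw [map_sum]
      refine Finset.sum_congr rfl fun i _ => ?_
      rw [map_mul, map_pow, hθof, hθroot]
  let e := AlgEquiv.ofBijective θ hbij
  obtain ⟨β, hβ⟩ := Ideal.Quotient.mk_surjective (φ α)
  let J' : Ideal (AdjoinRoot (X ^ p - C β : B[X])) := J.map (AdjoinRoot.of (X ^ p - C β : B[X]))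
  have hJ' : J' ^ 2 = ⊥ := by
    rw [← Ideal.map_pow, hJ, Ideal.map_bot]
  let inc : B →ₐ[k] AdjoinRoot (X ^ p - C β : B[X]) := IsScalarTower.toAlgHom k B _
  have hinc : ∀ b, inc b = AdjoinRoot.of _ b := fun _ => rfl
  let q : (B ⧸ J) →ₐ[k] (AdjoinRoot (X ^ p - C β : B[X]) ⧸ J') :=
    Ideal.quotientMapₐ J' inc Ideal.le_comap_map
  have hq : ∀ b, q (Ideal.Quotient.mk J b) = Ideal.Quotient.mk J' (AdjoinRoot.of _ b) := fun _ => rfl
  let σ : AdjoinRoot (X ^ p - C α : R[X]) →ₐ[k] (AdjoinRoot (X ^ p - C β : B[X]) ⧸ J') :=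
    AdjoinRoot.liftAlgHom _ (q.comp φ) (Ideal.Quotient.mk J' (AdjoinRoot.root _)) (by
      rw [Polynomial.eval₂_sub, Polynomial.eval₂_X_pow, Polynomial.eval₂_C]
      change _ - q (φ α) = 0
      rw [← hβ, hq, ← map_pow, ← map_sub]
      have h0 : AdjoinRoot.root (X ^ p - C β : B[X]) ^ p - AdjoinRoot.of (X ^ p - C β : B[X]) β = 0 := by
        have := AdjoinRoot.eval₂_root (X ^ p - C β : B[X])
        rwa [Polynomial.eval₂_sub, Polynomial.eval₂_X_pow, Polynomial.eval₂_C] at this
      rw [h0, map_zero])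
  have hσof : ∀ r, σ (AdjoinRoot.of _ r) = q (φ r) := fun r => AdjoinRoot.liftAlgHom_of _ _ _ _ r
  let F : A →ₐ[k] (AdjoinRoot (X ^ p - C β : B[X]) ⧸ J') := σ.comp e.symm.toAlgHom
  let ψ : A →ₐ[k] AdjoinRoot (X ^ p - C β : B[X]) := Algebra.FormallySmooth.lift J' ⟨2, hJ'⟩ F
  have hψ : ∀ a, Ideal.Quotient.mk J' (ψ a) = F a := fun a =>
    Algebra.FormallySmooth.mk_lift J' ⟨2, hJ'⟩ F a
  have hFr : ∀ r : R, F (algebraMap R A r) = q (φ r) := by
    intro r
    have h1 : e.symm (algebraMap R A r) = AdjoinRoot.of _ r := by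
      rw [AlgEquiv.symm_apply_eq]
      exact (hθof r).symm
    change σ (e.symm (algebraMap R A r)) = _
    rw [h1, hσof]
  -- ψ r is congruent to an element of B
  have hdiff : ∀ (r : R) (b : B), Ideal.Quotient.mk J b = φ r →
      ψ (algebraMap R A r) - AdjoinRoot.of _ b ∈ J' := by
    intro r b hb
    rw [← Ideal.Quotient.eq, hψ, hFr, ← hb, hq]
  have hc : ∀ (r : R) (b : B), Ideal.Quotient.mk J b = φ r →
      FSD_c hp β (ψ (algebraMap R A r)) - b ∈ J := by
    intro r b hb
    have h1 := FSD_c_mem hp β J _ (hdiff r b hb)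
    rwa [map_sub, FSD_c_of] at h1
  have hmk : ∀ r : R, Ideal.Quotient.mk J (FSD_c hp β (ψ (algebraMap R A r))) = φ r := by
    intro r
    obtain ⟨b, hb⟩ := Ideal.Quotient.mk_surjective (φ r)
    rw [← hb, Ideal.Quotient.eq]
    exact hc r b hb
  have hmul : ∀ r r' : R, FSD_c hp β (ψ (algebraMap R A (r * r'))) =
      FSD_c hp β (ψ (algebraMap R A r)) * FSD_c hp β (ψ (algebraMap R A r')) := by
    intro r r'
    set b := FSD_c hp β (ψ (algebraMap R A r)) with hb
    set b' := FSD_c hp β (ψ (algebraMap R A r')) with hb'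
    have h1 := hdiff r b (hmk r)
    have h2 := hdiff r' b' (hmk r')
    set x := ψ (algebraMap R A r) - AdjoinRoot.of _ b with hx
    set x' := ψ (algebraMap R A r') - AdjoinRoot.of _ b' with hx'
    have h3 : x * x' = 0 := by
      have : x * x' ∈ J' ^ 2 := by rw [pow_two]; exact Ideal.mul_mem_mul h1 h2
      rwa [hJ', Ideal.mem_bot] at this
    have h4 : FSD_c hp β x = 0 := by rw [hx, map_sub, FSD_c_of, ← hb, sub_self]
    have h5 : FSD_c hp β x' = 0 := by rw [hx', map_sub, FSD_c_of, ← hb', sub_self]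
    have h6 : ψ (algebraMap R A (r * r')) = AdjoinRoot.of _ (b * b') + AdjoinRoot.of _ b * x' +
        AdjoinRoot.of _ b' * x + x * x' := by
      rw [map_mul, map_mul, map_mul, hx, hx']
      ring
    rw [h6, h3, map_add, map_add, map_add, FSD_c_mul, FSD_c_mul, h4, h5, FSD_c_of, map_zero]
    ring
  have hcomm : ∀ c : k, FSD_c hp β (ψ (algebraMap R A (algebraMap k R c))) = algebraMap k B c := by
    intro c
    rw [← IsScalarTower.algebraMap_apply k R A, AlgHom.commutes,
      IsScalarTower.algebraMap_apply k B (AdjoinRoot (X ^ p - C β : B[X]))]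
    exact FSD_c_of hp β _
  refine ⟨{
    toFun := fun r => FSD_c hp β (ψ (algebraMap R A r))
    map_one' := by
      have := hcomm 1
      rwa [map_one (algebraMap k R), map_one (algebraMap k B)] at this
    map_mul' := hmul
    map_zero' := by simp
    map_add' := fun a b => by simp
    commutes' := hcomm }, ?_⟩
  ext r
  exact hmk r

end Pool.Agent.VF
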