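import Pool.Agent.helper51.VF.Defs

/-!
# Project vf (MP_74cfa5_ag): plt centres on quotients of smooth varieties by p-closed vector fields. Part A

THEOREM C. `k` algebraically closed of characteristic `p`, `A` smooth of dimension `n`, `R ⊆ A` integrally closed with `A ^ p ⊆ R`, the rank of `A` over `R` is `p` (so `Spec R` is the
quotient of `Spec A` by a foliation of rank one, for example by an action of `μ_p` or `α_p`), `(Spec R, S + B)` plt, `3 n (n - 1) < 2 p`. Then `S` is normal.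

Notation: `F = Frac R`, `K = Frac A`; `[K : F] = p`, `K ^ p ⊆ F`. `Der_F K` is one-dimensional; at a point `m` of `Spec A` take a derivation `δ` which maps `A` to `A_m` and is not divisible
along divisors. `T` is a derivation `F → K` with `T (c ^ p) = (δ c) ^ p`. `Ψ : (n-forms of F) → K`, `Ψ (df_1 ∧ ... ∧ df_n) = d⁻¹ det (D_l f_i, the column l0 replaced by T f_i)`, `d = δ(y_(l0))`: this does not depend on
`T` and `l0`. For a monomial valuation `v` with the weights `w` and `v(δ y_l) ≥ w_l + j`: `v (T f) ≥ v (f) + p j`, and `v (Ψ (dd f) / ∏ f_i) ≥ (p - 1) j - ∑ w`.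

Part A: derivations of `K / F`, the map `Ψ`, the derivation `T`, values.

RULES. Row `vf:XX`: prove `theorem XX (hYY : YY_stmt.{u}) ... : XX_stmt.{u}` (the rows after `from`, in that order; `QS.YY` means `hYY : QS.YY_stmt.{u}`) in
`Pool/Agent/<seat>/VF/XX.lean`, `import Pool.Agent.helper51.VF.SpecA`, `namespace Pool.Agent.VF`, `universe u`, `open Pool.Agent.PC Pool.Agent.QS`, auxiliary lemmas with the prefix `XX_`. No double
quotes, no convert / congr!, no native_decide. One line to helper51 when DONE; doubts about a statement at once. Useful lemmas: `Pool/Agent/helper51/VF/Lib.lean` (`Loc`, `LocI`), `Pool/Agent/helper51/QS/Lib.lean`,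
`Pool/Agent/helper16/PC/CONR.lean` (`CON_...`), `Pool/Agent/helper13/PC/ASA.lean` (`ASA_...`), namespace `Pool.Agent.PC` (they may be imported).
-/

set_option autoImplicit false

namespace Pool.Agent.VF

open Pool.Agent.PC Pool.Agent.QS MvPolynomial

universe u

/-! ### derivations of a field over a subfield of index p -/

/-- **FDR** (medium). `K ≠ F`; take `a ∈ K ∖ F`. `[K : F] = p` is prime, so `K = F(a)`, and the minimal polynomial of `a` is `X ^ p - a ^ p` (`a ^ p ∈ F`). Its derivative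
is `0`, so there is `∂ ∈ Der_F K` with `∂ a = 1`. A derivation is determined by its value at `a`. The kernel of `δ ≠ 0` is a field between `F` and `K`, not `K`, so it
is `F`. -/
def FDR_stmt : Prop := ∀ (F K : Type u) [Field F] [Field K] [Algebra F K] (p : ℕ) [Fact p.Prime] [CharP K p], Module.finrank F K = p → (∀ x : K, ∃ f : F, algebraMap
  F K f = x ^ p) → (∃ δ : Derivation F K K, δ ≠ 0) ∧ (∀ δ δ' : Derivation F K K, δ ≠ 0 → ∃ h : K, δ' = h • δ) ∧ ∀ δ : Derivation F K K, δ ≠ 0 → ∀ x : K, δ x = 0 → ∃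
  f : F, algebraMap F K f = x

/-- **PCL** (short to medium; from FDR). `δ ^ p` is a derivation (Leibniz for the iterates, the binomial coefficients vanish), so `δ ^ p = g δ`. As `δ ^ p` commutes with
`δ`: `δ(g) δ(x) = 0` for all `x`, so `δ g = 0` and `g ∈ F`. -/
def PCL_stmt : Prop := ∀ (F K : Type u) [Field F] [Field K] [Algebra F K] (p : ℕ) [Fact p.Prime] [CharP K p], Module.finrank F K = p → (∀ x : K, ∃ f : F, algebraMap
  F K f = x ^ p) → ∀ δ : Derivation F K K, δ ≠ 0 → ∃ g : F, Pcl p δ (algebraMap F K g)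

/-- **SLC** (medium). `δ ^ p u = δ ^ (p-1) 1 = 0 = g`, so `δ ^ p = 0`. `δ (EE x)` telescopes: it is `± u ^ (p-1) δ ^ p x / (p-1)! = 0`. The last sum is `∑_{i,l} u ^ i
(-u) ^ l δ ^ (i+l) a / (i! l!)`; the terms with `i + l = N` add up to `(u - u) ^ N δ ^ N a / N!` if `N < p`, and the others vanish. -/
def SLC_stmt : Prop := ∀ (F K : Type u) [Field F] [Field K] [Algebra F K] (p : ℕ) [Fact p.Prime] [CharP K p] (δ : Derivation F K K) (u g : K), Pcl p δ g → δ u = 1 →
  (∀ x, (⇑δ)^[p] x = 0) ∧ (∀ x, δ (EE p δ u x) = 0) ∧ ∀ a : K, a = ∑ i ∈ Finset.range p, ((i.factorial : ℕ) : K)⁻¹ * u ^ i * EE p δ u ((⇑δ)^[i] a)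

/-- **EXP** (short to medium). The `dy_l` are linearly independent in `Ω[K⁄k]` (the `D_l` give dual functionals), so they are a basis (`n > 0`, so `Ω[K⁄k]` is finite).
`E` and `∑ E(y_l) D_l` agree at the `y_l`. -/
def EXP_stmt : Prop := ∀ (k K : Type u) [Field k] [Field K] [Algebra k K] (n : ℕ) (D : Fin n → Derivation k K K) (y : Fin n → K), 0 < n → Module.finrank K (Ω[K⁄k]) =
  n → (∀ i j, D i (y j) = if i = j then 1 else 0) → ∀ (E : Derivation k K K) (x : K), E x = ∑ l, E (y l) * D l x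

/-- **DEX** (medium). `K = F(a)` with the basis `1, a, ..., a ^ (p-1)` over `F` (see FDR), `a ^ p = α ∈ F`, `E α = 0`. `E'(∑ f_i a ^ i) = ∑ E(f_i) a ^ i` is a derivation:
check the product rule on `f a ^ i`, `g a ^ j` (for `i + j ≥ p`: `a ^ (i+j) = α a ^ (i+j-p)` and `E (α f g) = α E (f g)`). -/
def DEX_stmt : Prop := ∀ (k F K : Type u) [Field k] [Field F] [Field K] [Algebra k F] [Algebra k K] [Algebra F K] [IsScalarTower k F K] (p : ℕ) [Fact p.Prime] [CharP
  K p], Module.finrank F K = p → (∀ x : K, ∃ f : F, algebraMap F K f = x ^ p) → ∀ E : Derivation k F K, (∀ (c : K) (f : F), algebraMap F K f = c ^ p → E f = 0) → ∃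
  E' : Derivation k K K, ∀ f : F, E' (algebraMap F K f) = E f

/-! ### pull back of forms -/

/-- **UNQ** (medium; from EXP, DEX). `E = T - T'` vanishes at the `p`-th powers, so `E f = ∑ E'(y_l) D_l f` (DEX, EXP). The difference of the two determinants is the
determinant with the column `l0` replaced by `E f_i`, so `E'(y_(l0)) det (D_l f_i)`, and `det (D_l f_i) = 0`, because `∑ δ(y_l) D_l f_i = δ f_i = 0` and `δ(y_(l0)) ≠
0`. -/
def UNQ_stmt : Prop := ∀ (k F K : Type u) [Field k] [Field F] [Field K] [Algebra k F] [Algebra k K] [Algebra F K] [IsScalarTower k F K] (p : ℕ) [Fact p.Prime] [CharP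
  K p], Module.finrank F K = p → (∀ x : K, ∃ f : F, algebraMap F K f = x ^ p) → ∀ (n : ℕ) (D : Fin n → Derivation k K K) (y : Fin n → K), 0 < n → Module.finrank K
  (Ω[K⁄k]) = n → (∀ i j, D i (y j) = if i = j then 1 else 0) → ∀ (δ : Derivation F K K) (T T' : Derivation k F K), Frob p δ T → Frob p δ T' → ∀ (l0 : Fin n) (d : K)
  (f : Fin n → F), δ (y l0) ≠ 0 → JF T D l0 d f = JF T' D l0 d f

/-- **IND** (short to medium). For `l0 ≠ l1`: the column `l1` of `M` is `- (a_(l1))⁻¹ ∑_{l ≠ l1} a_l M_l`. Insert this in the first determinant: only `l = l0`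
contributes, `- a_(l0) / a_(l1)` times the determinant with the columns `t` at `l0` and `M_(l0)` at `l1`, which is minus the second determinant. -/
def IND_stmt : Prop := ∀ (K : Type u) [Field K] (n : ℕ) (M : Matrix (Fin n) (Fin n) K) (a t : Fin n → K), (∀ i, ∑ l, M i l * a l = 0) → ∀ l0 l1 : Fin n, a l0 ≠ 0 → a
  l1 ≠ 0 → (a l0)⁻¹ * (Matrix.of fun i l => if l = l0 then t i else M i l).det = (a l1)⁻¹ * (Matrix.of fun i l => if l = l1 then t i else M i l).det

/-- **JUB** (short to medium; from EXP). Let `d = δ(y_(l0))` and `x = update f i0 c`. `d det (D_l x_i)` is the determinant with the column `l0` replaced by `∑ δ(y_l) D_l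
x_i = δ x_i`, which is `0` for `i ≠ i0` and `δ c` for `i = i0`. In `JF` the row `i0` has the entries `0` (`D_l (c ^ p) = 0`) and `(δ c) ^ p` at `l0`. Both are multiples
of the same minor. -/
def JUB_stmt : Prop := ∀ (k F K : Type u) [Field k] [Field F] [Field K] [Algebra k F] [Algebra k K] [Algebra F K] [IsScalarTower k F K] (p : ℕ) [Fact p.Prime] [CharP
  K p] (n : ℕ) (D : Fin n → Derivation k K K) (y : Fin n → K), 0 < n → Module.finrank K (Ω[K⁄k]) = n → (∀ i j, D i (y j) = if i = j then 1 else 0) → ∀ (δ :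
  Derivation F K K) (T : Derivation k F K), Frob p δ T → ∀ l0 : Fin n, δ (y l0) ≠ 0 → ∀ (f : Fin n → F) (i0 : Fin n) (c : K), algebraMap F K (f i0) = c ^ p → JF T D
  l0 (δ (y l0)) f = δ c ^ (p - 1) * JJ D (Function.update (fun i => algebraMap F K (f i)) i0 c)

/-- **PSA** (medium). The map `(ω_i) ↦ d⁻¹ det (...)` with the functionals `Ω[F⁄k] → K` of the derivations `D_l` (restricted to `F`) and `T` is multilinear over `F` and
alternating; it factors through `⋀ ^ n` (compare `Pool/Agent/helper2/PC/TRF.lean`). -/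
def PSA_stmt : Prop := ∀ (k F K : Type u) [Field k] [Field F] [Field K] [Algebra k F] [Algebra k K] [Algebra F K] [IsScalarTower k F K] (n : ℕ) (T : Derivation k F
  K) (D : Fin n → Derivation k K K) (l0 : Fin n) (d : K), ∃ Ψ : Form k F n →ₗ[F] K, ∀ f : Fin n → F, Ψ (dd k f) = JF T D l0 d f

/-- **NVF** (medium; from EXP, JUB). `c = y_(l0) ∉ F`, so `K = F(c)` and `y_i = ∑_{m<p} r_im c ^ m`, `r_im ∈ F`; so `D(y_i) = ∑ c ^ m D(r_im) + (∑ m r_im c ^ (m-1)) D c`
for all derivations `D` over `k`. Expand `1 = JJ D y` multilinearly: some `JJ D x ≠ 0` with all `x_i ∈ F ∪ {c}`. `c` occurs at most once (alternating) and at least once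
(otherwise `∑ δ(y_l) D_l x_i = 0`, as in UNQ), at `i0`. Take `f = x` with `c ^ p` at `i0`, and JUB. -/
def NVF_stmt : Prop := ∀ (k F K : Type u) [Field k] [Field F] [Field K] [Algebra k F] [Algebra k K] [Algebra F K] [IsScalarTower k F K] (p : ℕ) [Fact p.Prime] [CharP
  K p], Module.finrank F K = p → (∀ x : K, ∃ f : F, algebraMap F K f = x ^ p) → ∀ (n : ℕ) (D : Fin n → Derivation k K K) (y : Fin n → K), 0 < n → Module.finrank K
  (Ω[K⁄k]) = n → (∀ i j, D i (y j) = if i = j then 1 else 0) → ∀ (δ : Derivation F K K) (T : Derivation k F K), Frob p δ T → ∀ l0 : Fin n, δ (y l0) ≠ 0 → ∃ f : Fin n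
  → F, JF T D l0 (δ (y l0)) f ≠ 0

/-- **PSF** (medium; from EXP, UNQ, IND, PSA, NVF). Some `δ(y_(l0)) ≠ 0` (EXP). `Ψ` from PSA for `T`, `l0`; UNQ and IND (with `M_il = D_l f_i`, `a_l = δ(y_l)`, `∑ M_il
a_l = δ f_i = 0`) give the formula for all `T'`, `l1`. `⋀ ^ n` of the `n`-dimensional space `Ω[F⁄k]` has dimension `1` (compare `Pool/Agent/helper2/PC/TRF.lean`), and
`Ψ ≠ 0` by NVF. -/
def PSF_stmt : Prop := ∀ (k F K : Type u) [Field k] [Field F] [Field K] [Algebra k F] [Algebra k K] [Algebra F K] [IsScalarTower k F K] (p : ℕ) [Fact p.Prime] [CharP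
  K p], Module.finrank F K = p → (∀ x : K, ∃ f : F, algebraMap F K f = x ^ p) → ∀ (n : ℕ) (D : Fin n → Derivation k K K) (y : Fin n → K), 0 < n → Module.finrank K
  (Ω[K⁄k]) = n → Module.finrank F (Ω[F⁄k]) = n → (∀ i j, D i (y j) = if i = j then 1 else 0) → ∀ (δ : Derivation F K K) (T : Derivation k F K), δ ≠ 0 → Frob p δ T →
  ∃ Ψ : Form k F n →ₗ[F] K, IsPsF p δ D y Ψ

/-! ### the derivation T -/

/-- **HSD** (medium to long). Let `L ⊆ K` be the local ring `A_m` (all `x` with `Loc m x`); `δ` and the `D_l` map `L` to `L`. `A → L[s] / (s ^ p)`, `a ↦ ∑_{i<p} δ ^ i a s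
^ i / i!`, is a homomorphism over `k` (Leibniz). The kernel of `L[s] / (s ^ (p+1)) → L[s] / (s ^ p)` has square `0`: lift (formal smoothness). Let `τ₀ a` be the
coefficient of `s ^ p` of the lift. `τ₀ (a ^ p) = (δ a) ^ p`, because `(∑ c_i s ^ i) ^ p = ∑ c_i ^ p s ^ (i p)`. `τ a = τ₀ a - ∑_l τ₀(y_l) D_l a` (`D_l (a ^ p) = 0`).
-/
def HSD_stmt : Prop := ∀ (k A F K : Type u) [Field k] [CommRing A] [IsDomain A] [Algebra k A] [Field F] [Field K] [Algebra k F] [Algebra k K] [Algebra F K]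
  [IsScalarTower k F K] [Algebra A K] [IsScalarTower k A K] [IsFractionRing A K] [Algebra.FormallySmooth k A] (p : ℕ) [Fact p.Prime] [CharP K p] (n : ℕ) (m : Ideal
  A) [m.IsMaximal] (y : Fin n → A) (D : Fin n → Derivation k K K), Dual m y D → ∀ δ : Derivation F K K, (∀ a : A, Loc m (δ (algebraMap A K a))) → ∃ τ : A → K, IsTau
  k p m δ y τ

/-- **MNT** (medium). `δ` maps `m ^ N A_m` to `m ^ (N-1) A_m` (product and quotient rule). For `τ`: induction on `N` for `b c`, `b ∈ m`, `c ∈ m ^ (N-1)`: `τ (b c) = b τ c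
+ c τ b + ∑ (units) δ ^ i b δ ^ (p-i) c`, `1 ≤ i < p`. -/
def MNT_stmt : Prop := ∀ (k A F K : Type u) [Field k] [CommRing A] [IsDomain A] [Algebra k A] [Field F] [Field K] [Algebra k F] [Algebra k K] [Algebra F K]
  [IsScalarTower k F K] [Algebra A K] [IsScalarTower k A K] [IsFractionRing A K] (p : ℕ) [Fact p.Prime] [CharP K p] (n : ℕ) (m : Ideal A) [m.IsMaximal] (y : Fin n →
  A) (δ : Derivation F K K) (τ : A → K), (∀ a : A, Loc m (δ (algebraMap A K a))) → IsTau k p m δ y τ → (∀ (N i : ℕ) (b : A), b ∈ m ^ N → LocI m (m ^ (N - i))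
  ((⇑δ)^[i] (algebraMap A K b))) ∧ ∀ (N : ℕ) (b : A), b ∈ m ^ N → LocI m (m ^ (N - p)) (τ b)

/-- **VCL** (medium). `x = b / s`, `s ∉ m`; elements outside of `m` have value `0`, so `Ge v r x` iff `Ge v r b`, and we may take `r ≥ 0`. `x1 = b' / s1`, `x2 = c / s2`,
`c ∈ m ^ N`: `s1 s2 b = s s2 b' + s s1 c`. The coefficients of `φ (s1 s2) φ b` at all `α` with weight `< r` and degree `< N` vanish (IsW for `b'`, Taylor for `c`); the
complement of this set of `α` is upward closed and the constant coefficient of `φ (s1 s2)` is not `0`, so the same holds for `φ b` (induction on the degree). `N` is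
arbitrary. -/
def VCL_stmt : Prop := ∀ (k A K : Type u) [Field k] [CommRing A] [IsDomain A] [Algebra k A] [Field K] [Algebra k K] [Algebra A K] [IsScalarTower k A K]
  [IsFractionRing A K] (n : ℕ) (m : Ideal A) [m.IsMaximal] (y : Fin n → A) (φ : A →ₐ[k] MvPowerSeries (Fin n) k), Taylor m y φ → ∀ (w : Fin n → ℕ) (v : K → ℤ), IsW φ
  w v → ∀ (r : ℤ) (x : K), Loc m x → (∀ N : ℕ, ∃ x1 x2 : K, x = x1 + x2 ∧ Loc m x1 ∧ Ge v r x1 ∧ LocI m (m ^ N) x2) → Ge v r x

/-- **TVB** (medium; from QS.YWV, MNT, VCL). `τ 1 = 0`. For monomials `M` in `y`: `Ge v (weight M + p j) (τ M)`, by induction with the product rule (`τ y_l = 0`; `δ ^ i`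
increases values by `i j`). So the claim holds for polynomials in `y` with all monomials of weight `≥ r`. If `r ≤ 0` the claim for `r` follows from that for `0`. For `a
∈ A`, `Ge v r a`, `r ≥ 0`, and all `N`: `a = f(y) + a'`, `f` the truncation of `φ a` below degree `N + p` (all its monomials have weight `≥ r`), `a' ∈ m ^ (N+p)`, `τ a'
∈ m ^ N A_m` (MNT). VCL for `x = τ a`. -/
def TVB_stmt : Prop := ∀ (k A F K : Type u) [Field k] [CommRing A] [IsDomain A] [Algebra k A] [Field F] [Field K] [Algebra k F] [Algebra k K] [Algebra F K]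
  [IsScalarTower k F K] [Algebra A K] [IsScalarTower k A K] [IsFractionRing A K] (p : ℕ) [Fact p.Prime] [CharP K p] (n : ℕ) (m : Ideal A) [m.IsMaximal] (y : Fin n →
  A) (φ : A →ₐ[k] MvPowerSeries (Fin n) k), Taylor m y φ → ∀ (w : Fin n → ℕ) (v : K → ℤ), IsW φ w v → ∀ (δ : Derivation F K K) (τ : A → K), (∀ a : A, Loc m (δ
  (algebraMap A K a))) → IsTau k p m δ y τ → ∀ j : ℤ, (∀ (r : ℤ) (b : K), Ge v r b → Ge v (r + j) (δ b)) → ∀ (r : ℤ) (a : A), Ge v r (algebraMap A K a) → Ge v (r + p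
  * j) (τ a)

/-- **TEX** (medium). `τ` restricted to `R` is a derivation `R → K` over `k` (`δ = 0` on `R`). It extends to `T (a / b) = (b τ a - a τ b) / b ²`. If `f = c ^ p`, `c = a /
b` with `a, b ∈ A`, then `f = a ^ p / b ^ p` is a fraction of elements of `R`, and `T f = (b ^ p (δ a) ^ p - a ^ p (δ b) ^ p) / b ^ (2p) = (δ c) ^ p`. -/
def TEX_stmt : Prop := ∀ (k R A F K : Type u) [Field k] [CommRing R] [IsDomain R] [CommRing A] [IsDomain A] [Algebra k R] [Algebra k A] [Algebra R A] [IsScalarTower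
  k R A] [FaithfulSMul R A] [Field F] [Field K] [Algebra k F] [Algebra k K] [Algebra R F] [IsFractionRing R F] [Algebra A K] [IsFractionRing A K] [Algebra F K]
  [Algebra R K] [IsScalarTower k R F] [IsScalarTower k A K] [IsScalarTower k F K] [IsScalarTower R A K] [IsScalarTower R F K] (p : ℕ) [Fact p.Prime] [CharP K p] (n :
  ℕ) (m : Ideal A) (y : Fin n → A) (δ : Derivation F K K) (τ : A → K), (∀ a : A, ∃ r : R, algebraMap R A r = a ^ p) → IsTau k p m δ y τ → ∀ (v : K → ℤ) (j : ℤ), DVal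
  v → (∀ (r : ℤ) (a : A), Ge v r (algebraMap A K a) → Ge v (r + p * j) (τ a)) → ∃ T : Derivation k F K, Frob p δ T ∧ ∀ (r : ℤ) (f : F), Ge v r (algebraMap F K f) →
  Ge v (r + p * j) (T f)

/-- **WDD** (short; from EXP). `δ b = ∑ (δ(y_l) / y_l) (y_l D_l b)`. -/
def WDD_stmt : Prop := ∀ (k F K : Type u) [Field k] [Field F] [Field K] [Algebra k F] [Algebra k K] [Algebra F K] [IsScalarTower k F K] (n : ℕ) (D : Fin n →
  Derivation k K K) (y : Fin n → K), 0 < n → Module.finrank K (Ω[K⁄k]) = n → (∀ i j, D i (y j) = if i = j then 1 else 0) → ∀ (v : K → ℤ) (w : Fin n → ℤ) (j : ℤ) (δ :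
  Derivation F K K), DVal v → (∀ i, y i ≠ 0 ∧ v (y i) = w i) → (∀ (i : Fin n) (b : K) (r : ℤ), Ge v r b → Ge v r (y i * D i b)) → (∀ i, Ge v (w i + j) (δ (y i))) → ∀
  (r : ℤ) (b : K), Ge v r b → Ge v (r + j) (δ b)

/-- **WLF** (medium). Take `l0 = l1` in the formula for `Ψ (dd f)`. `Ψ (dd f) / ∏ f_i = δ(y_(l1))⁻¹ det`, the rows divided by `f_i`: the column `l ≠ l1` is `y_l⁻¹` times
a column with values `≥ 0`, the column `l1` has values `≥ p j`. -/
def WLF_stmt : Prop := ∀ (k F K : Type u) [Field k] [Field F] [Field K] [Algebra k F] [Algebra k K] [Algebra F K] [IsScalarTower k F K] (p n : ℕ) (D : Fin n →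
  Derivation k K K) (y : Fin n → K) (v : K → ℤ) (w : Fin n → ℤ) (j : ℤ) (δ : Derivation F K K) (T : Derivation k F K) (Ψ : Form k F n →ₗ[F] K), DVal v → IsPsF p δ D
  y Ψ → Frob p δ T → (∀ i, y i ≠ 0 ∧ v (y i) = w i) → (∀ (i : Fin n) (b : K) (r : ℤ), Ge v r b → Ge v r (y i * D i b)) → (∀ (r : ℤ) (f : F), Ge v r (algebraMap F K
  f) → Ge v (r + p * j) (T f)) → (∃ l1, δ (y l1) ≠ 0 ∧ v (δ (y l1)) = w l1 + j) → LogPs v Ψ ((p - 1) * j - ∑ i, w i)

/-- **LGV** (medium; from EXP, PSF, HSD, TVB, TEX, WDD, WLF, QS.YWV, QS.WDR). Not all `δ(y_l)` are `0` (EXP). `j` = the minimum of the `v(δ y_l) - w_l` over `δ y_l ≠ 0`,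
so `j ≥ j0`. WDD; HSD; TVB; TEX; PSF; WLF. -/
def LGV_stmt : Prop := ∀ (k R A F K : Type u) [Field k] [CommRing R] [IsDomain R] [CommRing A] [IsDomain A] [Algebra k R] [Algebra k A] [Algebra R A] [IsScalarTower
  k R A] [FaithfulSMul R A] [Field F] [Field K] [Algebra k F] [Algebra k K] [Algebra R F] [IsFractionRing R F] [Algebra A K] [IsFractionRing A K] [Algebra F K]
  [Algebra R K] [IsScalarTower k R F] [IsScalarTower k A K] [IsScalarTower k F K] [IsScalarTower R A K] [IsScalarTower R F K] [Algebra.FormallySmooth k A] (p : ℕ)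
  [Fact p.Prime] [CharP K p], Fol p R A F K → ∀ n : ℕ, 0 < n → Module.finrank K (Ω[K⁄k]) = n → Module.finrank F (Ω[F⁄k]) = n → ∀ (m : Ideal A) [m.IsMaximal] (y : Fin
  n → A) (φ : A →ₐ[k] MvPowerSeries (Fin n) k) (D : Fin n → Derivation k K K), Taylor m y φ → Dual m y D → ∀ (w : Fin n → ℕ) (v : K → ℤ), IsW φ w v → ∀ δ :
  Derivation F K K, δ ≠ 0 → (∀ a : A, Loc m (δ (algebraMap A K a))) → ∀ j0 : ℤ, (∀ i, Ge v (w i + j0) (δ (algebraMap A K (y i)))) → ∃ (T : Derivation k F K) (Ψ :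
  Form k F n →ₗ[F] K) (j : ℤ), Frob p δ T ∧ IsPsF p δ D (fun i => algebraMap A K (y i)) Ψ ∧ j0 ≤ j ∧ LogPs v Ψ ((p - 1) * j - ∑ i, (w i : ℤ))

end Pool.Agent.VF
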