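import Pool.Agent.helper51.VF.SpecA

/-!
# Project vf (MP_74cfa5_ag), part B: discrepancies, the extension A / R, codimension one, saturated derivations

See the header of `SpecA.lean` (rules, theorem). Rows of this file: `import Pool.Agent.helper51.VF.SpecB`. `QS.YY` means the finished row `QS.YY_stmt` of project qs
(`Pool/Agent/helper51/QS/SpecA.lean` and `SpecB.lean`), as a hypothesis `hYY : QS.YY_stmt.{u}`.
-/

set_option autoImplicit false

namespace Pool.Agent.VF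

open Pool.Agent.PC Pool.Agent.QS MvPolynomial

universe u

/-! ### descent of valuations and discrepancies -/

/-- **VBF** (medium). As QS.VBD (`Pool/Agent/*/QS/VBD.lean`): `P ≠ 0` of minimal degree with `Ge v 1 (P(a))` exists (otherwise `v = 0` on the algebraic extension `K` of
`k(a)`); some `(∂P/∂T_i)(a)` has the value `0`; `(∂P/∂T_i)(a) Ψ (dd a) = Ψ (dd (a_1, .., P(a), .., a_n))` because `d P(a) = ∑ (∂P/∂T_l)(a) da_l` and `dd` is alternating
and multilinear over `F`; this is `P(a) ∏_{l ≠ i} a_l` times a logarithmic value, of value `≥ e + 0 + c`, or `0`. -/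
def VBF_stmt : Prop := ∀ (k F K : Type u) [Field k] [IsAlgClosed k] [Field F] [Field K] [Algebra k F] [Algebra k K] [Algebra F K] [IsScalarTower k F K]
  [Algebra.IsAlgebraic F K] (n p : ℕ) [Fact p.Prime] [CharP k p] (x : Fin n → F), IsTranscendenceBasis k x → ∀ (Ψ : Form k F n →ₗ[F] K) (v : K → ℤ), DVal v → (∀ c :
  k, c ≠ 0 → v (algebraMap k K c) = 0) → ∀ c : ℤ, LogPs v Ψ c → ∀ e : ℤ, (∀ x : F, x ≠ 0 → 0 < v (algebraMap F K x) → e ≤ v (algebraMap F K x)) → ∀ a : Fin n → F, (∀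
  i, Ge v 0 (algebraMap F K (a i))) → Ge v (e + c) (Ψ (dd k a))

/-- **DIF** (medium; from VBF). As QS.DIS (`Pool/Agent/*/QS/DIS.lean`). `e = v (w)`, `v g = t e`. `ω = π ^ s ξ`, `ξ ∈ Reg O`, `v (Ψ ξ) ≥ e + c` (VBF and induction over
the closure), so `v (Ψ ω) ≥ s e + e + c`. `-1 < s - t / μ` gives `t < μ (s + 1)`, so `v g = t e < μ (s + 1) e ≤ μ v (Ψ ω) - μ c`. -/
def DIF_stmt : Prop := ∀ (k F K : Type u) [Field k] [IsAlgClosed k] [Field F] [Field K] [Algebra k F] [Algebra k K] [Algebra F K] [IsScalarTower k F K]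
  [Algebra.IsAlgebraic F K] (n p : ℕ) [Fact p.Prime] [CharP k p] (x : Fin n → F), IsTranscendenceBasis k x → ∀ Ψ : Form k F n →ₗ[F] K, (∀ ξ, Ψ ξ = 0 → ξ = 0) → ∀ v :
  K → ℤ, DVal v → (∀ c : k, c ≠ 0 → v (algebraMap k K c) = 0) → ∀ (O : ValuationSubring F) (w : F), Restr v O w → ∀ c : ℤ, LogPs v Ψ c → ∀ (ω : Form k F n) (g : F)
  (μ : ℕ) (s t : ℤ), ω ≠ 0 → g ≠ 0 → 0 < μ → OrdGe O ω s → HasOrd O g t → (-1 : ℚ) < (s : ℚ) - (t : ℚ) / μ → v (algebraMap F K g) - μ * v (Ψ ω) < -c * μ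

/-- **EHF** (medium). As QS.EHQ (`Pool/Agent/*/QS/EHQ.lean`). `e = v(w) ≥ 1`, `h = Ψ ω`. `1 = ∑ o_i Ψ(ξ_i)`, `ξ_i = dd c_i ∈ Reg O`, `ξ_i = x_i ω`, so some `i` has `x_i ≠
0`, `v(x_i h) ≤ 0`. If `v(h) > e s` then `v(x_i) < - e s`, the order of `x_i` is `≤ - s - 1`, and `ω = x_i⁻¹ ξ_i` has order `≥ s + 1`, against OrdEq. So `v(h) ≤ e s`,
`v(g) = e t`, `v(g) - μ v(h) ≥ e (t - μ s) = e μ β ≥ e μ b`. -/
def EHF_stmt : Prop := ∀ (k F K : Type u) [Field k] [Field F] [Field K] [Algebra k F] [Algebra k K] [Algebra F K] [IsScalarTower k F K] (n : ℕ) (Ψ : Form k F n →ₗ[F]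
  K), (∀ ξ, Ψ ξ = 0 → ξ = 0) → (∀ ω ξ : Form k F n, ω ≠ 0 → ∃ x : F, ξ = x • ω) → ∀ v : K → ℤ, DVal v → ∀ (O : ValuationSubring F) (w : F), Restr v O w → (1 : K) ∈
  AddSubgroup.closure {z | ∃ o : K, Ge v 0 o ∧ ∃ c : Fin n → F, (∀ i, c i ∈ O) ∧ z = o * Ψ (dd k c)} → ∀ (ω : Form k F n) (g : F) (μ : ℕ) (s t b : ℤ) (β : ℚ), ω ≠ 0
  → g ≠ 0 → 0 < μ → OrdEq O ω s → HasOrd O g t → (μ : ℚ) * ((s : ℚ) + β) = t → 0 ≤ β → (b : ℚ) ≤ β → (μ : ℤ) * b * v (algebraMap F K w) ≤ v (algebraMap F K g) - μ *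
  v (Ψ ω)

/-- **DSF** (medium; from QS.DVF, DIF, QS.CEH). As `Pool/Agent/helper51/QS/DSQ.lean`. `O`, `w` from DVF; the centre of `O` on `R` is `P = 𝔠 ∩ R`, `𝔠 = {a ∈ A : v a ≥ 1}`
(a prime, `𝔮 < 𝔠 ≤ m`), of height `≥ 2` (CEH), `P ≤ M`. DiscrAt gives `s`, `t`; DIF: `v(g) - μ v(Ψ ω) < - c μ`; the left side is `e μ v(t) + v(u) - v(s) ≥ e μ v(t)`. -/
def DSF_stmt : Prop := ∀ (k R A F K : Type u) [Field k] [IsAlgClosed k] [CommRing R] [IsDomain R] [CommRing A] [IsDomain A] [Algebra k R] [Algebra k A] [Algebra R A]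
  [IsScalarTower k R A] [FaithfulSMul R A] [Field F] [Field K] [Algebra k F] [Algebra k K] [Algebra R F] [IsFractionRing R F] [Algebra A K] [IsFractionRing A K]
  [Algebra F K] [Algebra R K] [IsScalarTower k R F] [IsScalarTower k A K] [IsScalarTower k F K] [IsScalarTower R A K] [IsScalarTower R F K] [Algebra.IsIntegral R A]
  [Algebra.IsAlgebraic F K] (n p : ℕ) [Fact p.Prime] [CharP k p] (x : Fin n → F), IsTranscendenceBasis k x → ∀ Ψ : Form k F n →ₗ[F] K, (∀ ξ, Ψ ξ = 0 → ξ = 0) → ∀ (ω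
  : Form k F n) (μ : ℕ) (g : F), ω ≠ 0 → g ≠ 0 → 0 < μ → ∀ (m : Ideal A) [m.IsMaximal], DiscrAt R ω μ (m.comap (algebraMap R A)) g → ∀ (t u s : A) (e : ℕ), s ∉ m →
  algebraMap F K g / Ψ ω ^ μ = algebraMap A K t ^ (e * μ) * algebraMap A K u / algebraMap A K s → ∀ (v : K → ℤ) (c : ℤ), DVal v → (∀ c : k, c ≠ 0 → v (algebraMap k K
  c) = 0) → (∀ a : A, Ge v 0 (algebraMap A K a)) → (∀ a : A, a ∉ m → v (algebraMap A K a) = 0) → (∃ a : Fin (n - 1) → K, ∀ Q : MvPolynomial (Fin (n - 1)) k, Q ≠ 0 →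
  aeval a Q ≠ 0 ∧ v (aeval a Q) = 0) → ∀ 𝔮 : Ideal A, 𝔮.IsPrime → 𝔮 ≠ ⊥ → (∀ a ∈ 𝔮, Ge v 1 (algebraMap A K a)) → (∃ a : A, Ge v 1 (algebraMap A K a) ∧ a ∉ 𝔮) → LogPs
  v Ψ c → (e : ℤ) * v (algebraMap A K t) < -c

/-- **PLV** (medium to long; from LGV, DSF, QS.DUA, QS.PYY, QS.YWV, QS.WTR). `D` from DUA. `T`, `Ψ`, `j ≥ j0` from LGV, with `c = (p-1) j - ∑ w ≥ (p-1) j0 - ∑ w`. `𝔮`
from PYY for `h = 1`: it contains `y_0 ≠ 0`, not `y_1` (`y_1` has value `≥ 1`), and its elements have value `≥ 1` (`s b ∈ (y_0)`, `s ∉ m`). Disc gives `g / Ψ ω ^ μ = t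
^ μ u / s`, and `t ^ (p μ) u / s` if `t` is not invariant. DSF with `e = 1`, `e = p`. (`[K : F] = p`, so `K / F` is algebraic.) -/
def PLV_stmt : Prop := ∀ (k R A F K : Type u) [Field k] [IsAlgClosed k] [CommRing R] [IsDomain R] [CommRing A] [IsDomain A] [Algebra k R] [Algebra k A] [Algebra R A]
  [IsScalarTower k R A] [FaithfulSMul R A] [Field F] [Field K] [Algebra k F] [Algebra k K] [Algebra R F] [IsFractionRing R F] [Algebra A K] [IsFractionRing A K]
  [Algebra F K] [Algebra R K] [IsScalarTower k R F] [IsScalarTower k A K] [IsScalarTower k F K] [IsScalarTower R A K] [IsScalarTower R F K] [Algebra.Smooth k A]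
  [Algebra.IsIntegral R A] (n p : ℕ) [Fact p.Prime] [CharP k p], Fol p R A F K → ∀ x : Fin n → F, IsTranscendenceBasis k x → Module.finrank K (Ω[K⁄k]) = n →
  Module.finrank F (Ω[F⁄k]) = n → ∀ h2 : 2 ≤ n, ∀ (ω : Form k F n) (μ : ℕ) (g : F), ω ≠ 0 → g ≠ 0 → 0 < μ → ∀ (m : Ideal A) [m.IsMaximal], DiscrAt R ω μ (m.comap
  (algebraMap R A)) g → ∀ t : A, t ≠ 0 → ∀ δ : Derivation F K K, δ ≠ 0 → (∀ a : A, Loc m (δ (algebraMap A K a))) → Disc p m δ ω μ g t → ∀ (y : Fin n → A) (φ : A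
  →ₐ[k] MvPowerSeries (Fin n) k), Coord k m y → Taylor m y φ → ∀ (w : Fin n → ℕ) (v : K → ℤ), 1 ≤ w ⟨0, by omega⟩ → 1 ≤ w ⟨1, by omega⟩ → IsW φ w v → ∀ j0 : ℤ, (∀ i,
  Ge v (w i + j0) (δ (algebraMap A K (y i)))) → v (algebraMap A K t) < ∑ i, (w i : ℤ) - (p - 1) * j0 ∧ (¬ LocI m (Ideal.span {t}) (δ (algebraMap A K t)) → p * v
  (algebraMap A K t) < ∑ i, (w i : ℤ) - (p - 1) * j0)

/-! ### the extension A / R -/

/-- **CAP** (short). `f` is integral over `R`, because `a` is; `R` is integrally closed in `F`. -/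
def CAP_stmt : Prop := ∀ (R A F K : Type u) [CommRing R] [IsDomain R] [IsIntegrallyClosed R] [CommRing A] [IsDomain A] [Algebra R A] [Algebra.IsIntegral R A] [Field
  F] [Field K] [Algebra R F] [IsFractionRing R F] [Algebra A K] [IsFractionRing A K] [Algebra F K] [Algebra R K] [IsScalarTower R A K] [IsScalarTower R F K] (f : F)
  (a : A), algebraMap F K f = algebraMap A K a → ∃ r : R, algebraMap R A r = a

/-- **HOM** (short to medium). `a ∈ Q` iff `a ^ p ∈ Q ∩ R`, so `Q` is determined by `Q ∩ R`; all primes of `R` are of this form (lying over); heights agree because the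
ordered sets of primes are isomorphic. If `Q` lies over `P` then `Q` is the radical of `P A` (`b ∈ Q` gives `b ^ p ∈ P A`). -/
def HOM_stmt : Prop := ∀ (R A : Type u) [CommRing R] [IsDomain R] [CommRing A] [IsDomain A] [Algebra R A] [FaithfulSMul R A] (p : ℕ), 0 < p → (∀ a : A, ∃ r : R,
  algebraMap R A r = a ^ p) → Algebra.IsIntegral R A ∧ (∀ Q : Ideal A, Q.IsPrime → (Q.comap (algebraMap R A)).height = Q.height) ∧ (∀ Q Q' : Ideal A, Q.IsPrime →
  Q'.IsPrime → Q.comap (algebraMap R A) ≤ Q'.comap (algebraMap R A) → Q ≤ Q') ∧ ∀ P : Ideal R, P.IsPrime → ((P.map (algebraMap R A)).radical).IsPrime ∧ ((P.map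
  (algebraMap R A)).radical).comap (algebraMap R A) = P

/-- **FTR** (short). `A` is of finite type over `k` and integral over `R`, so finite over `R`; Artin - Tate (`k` is noetherian; see QS.INV). -/
def FTR_stmt : Prop := ∀ (k R A : Type u) [Field k] [CommRing R] [IsDomain R] [CommRing A] [IsDomain A] [Algebra k R] [Algebra k A] [Algebra R A] [IsScalarTower k R
  A] [FaithfulSMul R A] [Algebra.FiniteType k A] [Algebra.IsIntegral R A], Algebra.FiniteType k R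

/-! ### codimension one -/

/-- **EIP** (short to medium). `q` is a uniformizer (otherwise `δ q ∈ Q A_Q`), `δ q` a unit of `A_Q`. For `N = v f`, `f = q ^ N x`, `v x = 0`: `0 = δ f = N q ^ (N-1) δ(q)
x + q ^ N δ x`, so `N δ(q) x = - q δ x` has value `≥ 1`, and `N = 0` in `K`. -/
def EIP_stmt : Prop := ∀ (A F K : Type u) [CommRing A] [IsDomain A] [Field F] [Field K] [Algebra F K] [Algebra A K] [IsFractionRing A K] (p : ℕ) [Fact p.Prime]
  [CharP K p] (Q : Ideal A) (v : K → ℤ), Q.IsPrime → LocV Q v → ∀ δ : Derivation F K K, (∀ a : A, Loc Q (δ (algebraMap A K a))) → ∀ q ∈ Q, ¬ LocI Q Q (δ (algebraMap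
  A K q)) → ∀ f : F, f ≠ 0 → (p : ℤ) ∣ v (algebraMap F K f)

/-- **ETF** (medium; from FDR, PCL, SLC). `d = δ u` is a unit of `A_Q`; `δ' = d⁻¹ δ` maps `A_Q` to `A_Q`, `δ' u = 1`. PCL and SLC for `δ'`: `r_i = EE (δ' ^ i a) / i!`
lies in `A_Q`, and in `F` (FDR, as `δ'` kills it). -/
def ETF_stmt : Prop := ∀ (k A F K : Type u) [Field k] [CommRing A] [IsDomain A] [Algebra k A] [Field F] [Field K] [Algebra k F] [Algebra k K] [Algebra F K]
  [IsScalarTower k F K] [Algebra A K] [IsScalarTower k A K] [IsFractionRing A K] (p : ℕ) [Fact p.Prime] [CharP K p], Module.finrank F K = p → (∀ x : K, ∃ f : F,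
  algebraMap F K f = x ^ p) → ∀ Q : Ideal A, Q.IsPrime → ∀ δ : Derivation F K K, (∀ a : A, Loc Q (δ (algebraMap A K a))) → ∀ u : A, ¬ LocI Q Q (δ (algebraMap A K u))
  → ∀ a : A, ∃ r : ℕ → F, (∀ i, Loc Q (algebraMap F K (r i))) ∧ algebraMap A K a = ∑ i ∈ Finset.range p, algebraMap F K (r i) * algebraMap A K u ^ i

/-- **ETK** (medium; from EXP, JUB, ETF). `u` with `δ u` a unit of `A_Q`. By ETF every `y_i = ∑ r_im u ^ m`, so `D(y_i) = ∑ u ^ m D(r_im) + (∑ m r_im u ^ (m-1)) D u` for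
all derivations `D` over `k`. Expand `1 = JJ D y`: a combination with coefficients in `A_Q` of the `JJ D x`, `x_i ∈ F ∩ A_Q` or `x_i = u`. Those with `u` at two places
vanish, and those without `u` too (`∑ δ(y_l) D_l x_i = δ x_i = 0`, EXP). If `u` is at the place `i0`: `JJ D x = (δ u) ^ (1-p) Ψ (dd c)`, `c = x` with `u ^ p` at `i0`
(JUB and IsPsF). -/
def ETK_stmt : Prop := ∀ (k A F K : Type u) [Field k] [CommRing A] [IsDomain A] [Algebra k A] [Field F] [Field K] [Algebra k F] [Algebra k K] [Algebra F K]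
  [IsScalarTower k F K] [Algebra A K] [IsScalarTower k A K] [IsFractionRing A K] (p : ℕ) [Fact p.Prime] [CharP K p], Module.finrank F K = p → (∀ x : K, ∃ f : F,
  algebraMap F K f = x ^ p) → ∀ (n : ℕ) (D : Fin n → Derivation k K K) (y : Fin n → A), 0 < n → Module.finrank K (Ω[K⁄k]) = n → (∀ i j, D i (algebraMap A K (y j)) =
  if i = j then 1 else 0) → ∀ (δ : Derivation F K K) (T : Derivation k F K) (Ψ : Form k F n →ₗ[F] K), Frob p δ T → IsPsF p δ D (fun i => algebraMap A K (y i)) Ψ → ∀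
  Q : Ideal A, Q.IsPrime → (∀ a : A, Loc Q (δ (algebraMap A K a))) → (∃ a : A, ¬ LocI Q Q (δ (algebraMap A K a))) → (1 : K) ∈ AddSubgroup.closure {z | ∃ o : K, Loc Q
  o ∧ ∃ c : Fin n → F, (∀ i, Loc Q (algebraMap F K (c i))) ∧ z = o * Ψ (dd k c)}

/-- **GHF** (medium; from QS.LRF, EHF, ETK, EIP, HOM). `P = Q ∩ R` has height `1` (HOM), `P ≤ M`; `O`, `w` from LRF (`x ∈ O` iff `Ge v 0 x` iff `Loc Q x`, LocV); `v(w) ≥
1`, and `v(w) ≥ p` if some `q ∈ Q` has `δ q ∉ Q A_Q` (EIP). ETK. CartierAt at `P`, `O`, and EHF with `β = [P = S] + B P`, `b = 0`, or `b = 1` if `S ≤ P` (then `S = P`,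
as both have height `1`). -/
def GHF_stmt : Prop := ∀ (k R A F K : Type u) [Field k] [IsAlgClosed k] [CommRing R] [IsDomain R] [CommRing A] [IsDomain A] [Algebra k R] [Algebra k A] [Algebra R A]
  [IsScalarTower k R A] [FaithfulSMul R A] [Field F] [Field K] [Algebra k F] [Algebra k K] [Algebra R F] [IsFractionRing R F] [Algebra A K] [IsFractionRing A K]
  [Algebra F K] [Algebra R K] [IsScalarTower k R F] [IsScalarTower k A K] [IsScalarTower k F K] [IsScalarTower R A K] [IsScalarTower R F K] [IsNoetherianRing R]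
  [IsIntegrallyClosed R] (n p : ℕ) [Fact p.Prime] [CharP k p], Fol p R A F K → 0 < n → Module.finrank K (Ω[K⁄k]) = n → ∀ (D : Fin n → Derivation k K K) (y : Fin n →
  A), (∀ i j, D i (algebraMap A K (y j)) = if i = j then 1 else 0) → ∀ (δ : Derivation F K K) (T : Derivation k F K) (Ψ : Form k F n →ₗ[F] K), Frob p δ T → IsPsF p δ
  D (fun i => algebraMap A K (y i)) Ψ → ∀ (S : Ideal R) (B : Ideal R → ℚ) (ω : Form k F n) (μ : ℕ) (g : F), ω ≠ 0 → g ≠ 0 → 0 < μ → Boundary S B → ∀ m : Ideal A,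
  CartierAt S B ω μ (m.comap (algebraMap R A)) g → ∀ (Q : Ideal A) (v : K → ℤ), Q.IsPrime → Q.height = 1 → Q ≤ m → LocV Q v → (∀ a : A, Loc Q (δ (algebraMap A K a)))
  → (∃ a : A, ¬ LocI Q Q (δ (algebraMap A K a))) → 0 ≤ v (algebraMap F K g / Ψ ω ^ μ) ∧ (S ≤ Q.comap (algebraMap R A) → (μ : ℤ) ≤ v (algebraMap F K g / Ψ ω ^ μ)) ∧
  (S ≤ Q.comap (algebraMap R A) → (∃ q ∈ Q, ¬ LocI Q Q (δ (algebraMap A K q))) → (p * μ : ℤ) ≤ v (algebraMap F K g / Ψ ω ^ μ))

/-- **RPF** (medium; from QS.LVQ, QS.TEQ, GHF, HOM). `I` = radical of `S A` is prime of height `1` (HOM), `I ≤ m`. `t` from TEQ; it does not depend on `δ`, `D`, `y`, `T`,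
`Ψ`. First part of Disc: TEQ with `μ` and GHF (`δ` is Sat, `Q ≤ m`, so `Loc Q (δ a)`). Second part: TEQ with `p μ`. If `δ t ∉ t A_m` then `δ t ∉ I A_I`: otherwise `δ t
= b / s`, `s ∉ m`, `b ∈ I` (`I` is prime), so `b ∈ t A_m` (Eqn). If `I ≤ Q` then `Q = I` (heights), so `q = t` is as in GHF. -/
def RPF_stmt : Prop := ∀ (k R A F K : Type u) [Field k] [IsAlgClosed k] [CommRing R] [IsDomain R] [CommRing A] [IsDomain A] [Algebra k R] [Algebra k A] [Algebra R A]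
  [IsScalarTower k R A] [FaithfulSMul R A] [Field F] [Field K] [Algebra k F] [Algebra k K] [Algebra R F] [IsFractionRing R F] [Algebra A K] [IsFractionRing A K]
  [Algebra F K] [Algebra R K] [IsScalarTower k R F] [IsScalarTower k A K] [IsScalarTower k F K] [IsScalarTower R A K] [IsScalarTower R F K] [IsNoetherianRing R]
  [IsIntegrallyClosed R] [IsNoetherianRing A] [IsIntegrallyClosed A] (n p : ℕ) [Fact p.Prime] [CharP k p], Fol p R A F K → 0 < n → Module.finrank K (Ω[K⁄k]) = n → ∀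
  (S : Ideal R) (B : Ideal R → ℚ) (ω : Form k F n) (μ : ℕ) (g : F), ω ≠ 0 → g ≠ 0 → 0 < μ → Boundary S B → ∀ (m : Ideal A) [m.IsMaximal], UniqueFactorizationMonoid
  (Localization.AtPrime m) → S ≤ m.comap (algebraMap R A) → CartierAt S B ω μ (m.comap (algebraMap R A)) g → ∃ t : A, t ≠ 0 ∧ Eqn m (S.map (algebraMap R A)).radical
  t ∧ ∀ δ : Derivation F K K, Sat m δ → Disc p m δ ω μ g t

/-! ### saturated derivations -/

/-- **SAT** (medium; from EXP). `L = A_m`. `Δ ≠ 0` in `Der_F K`; `b ∈ A`, `b ≠ 0`, with all `b Δ(y_l) ∈ A`; not all are `0` (EXP). `c` = the greatest common divisor of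
the `b Δ(y_l)` in the factorial ring `L`; `δ = (b / c) Δ`. `δ = ∑ δ(y_l) D_l` maps `A` to `L` (Dual). Let `Q ≤ m` be of height `1`: `Q L = (q)`, `q` a prime element,
does not divide all `δ(y_l)`, so some `δ(y_l) ∉ q L = Q A_Q ∩ L`. -/
def SAT_stmt : Prop := ∀ (k A F K : Type u) [Field k] [CommRing A] [IsDomain A] [Algebra k A] [Field F] [Field K] [Algebra k F] [Algebra k K] [Algebra F K]
  [IsScalarTower k F K] [Algebra A K] [IsScalarTower k A K] [IsFractionRing A K] [IsNoetherianRing A] (n : ℕ), 0 < n → Module.finrank K (Ω[K⁄k]) = n → ∀ (m : Ideal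
  A) [m.IsMaximal] (y : Fin n → A) (D : Fin n → Derivation k K K), Dual m y D → UniqueFactorizationMonoid (Localization.AtPrime m) → (∃ Δ : Derivation F K K, Δ ≠ 0)
  → ∃ δ : Derivation F K K, δ ≠ 0 ∧ Sat m δ

/-- **GRG** (short to medium). `δ` maps `L = A_m` to `L`. `g = a / b` with `a, b ∈ L` without common prime factor. `g δ x = δ ^ p x ∈ L` for `x ∈ A`, so `b ∣ a δ x` and
`b ∣ δ x`. If a prime `q` of `L` divides `b`, then `Q = q L ∩ A` has height `1` (Krull), `Q ≤ m`, and `δ x ∈ Q A_Q` for all `x ∈ A`, against Sat. So `b` is a unit. -/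
def GRG_stmt : Prop := ∀ (k A F K : Type u) [Field k] [CommRing A] [IsDomain A] [Algebra k A] [Field F] [Field K] [Algebra k F] [Algebra k K] [Algebra F K]
  [IsScalarTower k F K] [Algebra A K] [IsScalarTower k A K] [IsFractionRing A K] [IsNoetherianRing A] (p : ℕ) (m : Ideal A) [m.IsMaximal], UniqueFactorizationMonoid
  (Localization.AtPrime m) → ∀ (δ : Derivation F K K) (g : K), Sat m δ → Pcl p δ g → Loc m g

/-- **NFX** (short to medium). `δ₀` and `u ∈ A` with `δ₀ (A) ⊆ A_Q`, `δ₀ u ∉ Q A_Q`, a unit of `A_Q`. `δ = (δ₀ u)⁻¹ δ₀`. If `a_1, ..., a_N` generate `A` over `k`, `δ a_i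
= b_i / s_i`, `s_i ∉ Q`, take `f = ∏ s_i` (`f δ a` is an `A`-combination of the `f δ a_i`). -/
def NFX_stmt : Prop := ∀ (k A F K : Type u) [Field k] [CommRing A] [IsDomain A] [Algebra k A] [Field F] [Field K] [Algebra k F] [Algebra k K] [Algebra F K]
  [IsScalarTower k F K] [Algebra A K] [IsScalarTower k A K] [IsFractionRing A K] [Algebra.FiniteType k A] (Q : Ideal A), Q.IsPrime → ¬ Sing F K Q → ∃ (δ : Derivation
  F K K) (u f : A), Slice Q δ u f

end Pool.Agent.VF
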