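import Pool.Agent.helper51.VF.SpecB
import Pool.Agent.helper51.PC.Bridge
import Pool.Agent.helper51.QS.SpecC

/-!
# Project vf (MP_74cfa5_ag), part C: singular and nonsingular points, assembly

See the header of `SpecA.lean` (rules, theorem). Rows of this file: `import Pool.Agent.helper51.VF.SpecC`. `QS.YY` means the finished row `QS.YY_stmt` of project qs
(`Pool/Agent/helper51/QS/SpecA.lean`, `SpecB.lean`, `SpecC.lean`), as a hypothesis `hYY : QS.YY_stmt.{u}`.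

Singular points `Q` (`δ A ⊆ Q A_Q` for all `δ` with `δ A ⊆ A_Q`): the plt condition implies that `δ ^ p = g δ` with a unit `g` (NLP) and that the local equation `t` is invariant (IVT), so
`ρ = 1 - g⁻¹ δ ^ (p-1)` projects `A_Q` to `R_P` and `(s, t) A_Q` to `(s, S) R_P`; the rest is as in Theorem B (project qs). Nonsingular points: `Spec R` is smooth there (SLF) and Theorem B for the
trivial group applies.
-/

set_option autoImplicit false

namespace Pool.Agent.VF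

open Pool.Agent.PC Pool.Agent.QS MvPolynomial

universe u

/-! ### singular points -/

/-- **FLD** (medium). `V = m / m²`; as `A = k + m`, `s ∉ m` is a unit constant modulo `m`, so `V = m A_m / m² A_m`. `δ` maps `m` to `m A_m` and `m²` to `m² A_m`, so it
acts on `V`, linearly over `k`, by `N`. `N ^ p = 0`, as `δ ^ p b = g δ b ∈ m² A_m`. By induction on the dimension a nilpotent operator has a basis `b_1, ..., b_n` with
`N b_i` in the span of the `b_l`, `l > i` (see QS.FLG). -/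
def FLD_stmt : Prop := ∀ (k A F K : Type u) [Field k] [CommRing A] [IsDomain A] [Algebra k A] [Field F] [Field K] [Algebra k F] [Algebra k K] [Algebra F K]
  [IsScalarTower k F K] [Algebra A K] [IsScalarTower k A K] [IsFractionRing A K] (n p : ℕ) [Fact p.Prime] [CharP k p] (m : Ideal A) [m.IsMaximal] (δ : Derivation F K
  K) (g : K), (∀ a : A, ∃ c : k, a - algebraMap k A c ∈ m) → (∀ a : A, Loc m (δ (algebraMap A K a))) → Fix m δ → Pcl p δ g → LocI m m g → (∃ y : Fin n → A, Coord k m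
  y) → ∃ y : Fin n → A, Coord k m y ∧ ∀ i, ∃ c : Fin n → k, (∀ l, l ≤ i → c l = 0) ∧ LocI m (m ^ 2) (δ (algebraMap A K (y i)) - algebraMap A K (∑ l, c l • y l))

/-- **NLP** (medium; from FLD, PLV, QS.LCF, QS.WVL, QS.YWV). Suppose `g' ∈ m A_m`. `y` from FLD (`A / m = k`, and coordinates exist, LCF), `φ` from LCF, `v` with the
weights `w_i = n + i`, `i < n` (`w_1 = w_0 + 1`; WVL): `∑ w = n (3n - 1) / 2`. `m` has values `≥ n`, `m²` has values `≥ 2n ≥ w_i + 1` (YWV with `c = n`), `y_l` has the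
value `w_l ≥ w_i + 1` for `l > i`: so `Ge v (w_i + 1) (δ y_i)`. PLV with `j0 = 1`: `n ≤ v(t) < n (3n-1) / 2 - (p - 1)`, so `2 (p - 1) < 3 n (n - 1)`; `3 n (n-1)` is
even, so `2 p ≤ 3 n (n-1)`, a contradiction. -/
def NLP_stmt : Prop := ∀ (k R A F K : Type u) [Field k] [IsAlgClosed k] [CommRing R] [IsDomain R] [CommRing A] [IsDomain A] [Algebra k R] [Algebra k A] [Algebra R A]
  [IsScalarTower k R A] [FaithfulSMul R A] [Field F] [Field K] [Algebra k F] [Algebra k K] [Algebra R F] [IsFractionRing R F] [Algebra A K] [IsFractionRing A K]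
  [Algebra F K] [Algebra R K] [IsScalarTower k R F] [IsScalarTower k A K] [IsScalarTower k F K] [IsScalarTower R A K] [IsScalarTower R F K] [Algebra.Smooth k A]
  [Algebra.IsIntegral R A] (n p : ℕ) [Fact p.Prime] [CharP k p], Fol p R A F K → ∀ x : Fin n → F, IsTranscendenceBasis k x → Module.finrank K (Ω[K⁄k]) = n →
  Module.finrank F (Ω[F⁄k]) = n → ringKrullDim A = n → 2 ≤ n → 3 * n * (n - 1) < 2 * p → ∀ (ω : Form k F n) (μ : ℕ) (g : F), ω ≠ 0 → g ≠ 0 → 0 < μ → ∀ (m : Ideal A)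
  [m.IsMaximal], DiscrAt R ω μ (m.comap (algebraMap R A)) g → ∀ t : A, t ≠ 0 → t ∈ m → ∀ δ : Derivation F K K, δ ≠ 0 → (∀ a : A, Loc m (δ (algebraMap A K a))) → Disc
  p m δ ω μ g t → Fix m δ → ∀ g' : K, Pcl p δ g' → ¬ LocI m m g'

/-- **IVT** (short to medium; from PLV, QS.LCF, QS.WVL, QS.YWV). All weights `1`: `Ge v 1 (δ y_i)` (Fix), so PLV with `j0 = 0`: if `δ t ∉ t A_m` then `p v(t) < n ≤ p`,
but `v(t) ≥ 1` (YWV with `c = 1`, `N = 1`). -/
def IVT_stmt : Prop := ∀ (k R A F K : Type u) [Field k] [IsAlgClosed k] [CommRing R] [IsDomain R] [CommRing A] [IsDomain A] [Algebra k R] [Algebra k A] [Algebra R A]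
  [IsScalarTower k R A] [FaithfulSMul R A] [Field F] [Field K] [Algebra k F] [Algebra k K] [Algebra R F] [IsFractionRing R F] [Algebra A K] [IsFractionRing A K]
  [Algebra F K] [Algebra R K] [IsScalarTower k R F] [IsScalarTower k A K] [IsScalarTower k F K] [IsScalarTower R A K] [IsScalarTower R F K] [Algebra.Smooth k A]
  [Algebra.IsIntegral R A] (n p : ℕ) [Fact p.Prime] [CharP k p], Fol p R A F K → ∀ x : Fin n → F, IsTranscendenceBasis k x → Module.finrank K (Ω[K⁄k]) = n →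
  Module.finrank F (Ω[F⁄k]) = n → ringKrullDim A = n → 2 ≤ n → n ≤ p → ∀ (ω : Form k F n) (μ : ℕ) (g : F), ω ≠ 0 → g ≠ 0 → 0 < μ → ∀ (m : Ideal A) [m.IsMaximal],
  DiscrAt R ω μ (m.comap (algebraMap R A)) g → ∀ t : A, t ≠ 0 → t ∈ m → ∀ δ : Derivation F K K, δ ≠ 0 → (∀ a : A, Loc m (δ (algebraMap A K a))) → Disc p m δ ω μ g t
  → Fix m δ → LocI m (Ideal.span {t}) (δ (algebraMap A K t))

/-- **RNF** (medium; from PLV, QS.WVL, QS.YWV). As QS.RON (`Pool/Agent/*/QS/RON.lean`). Weights `1, 1, 0, ..., 0`. For `b ∈ Q`: `s b ∈ (y_0, y_1)`, `s ∉ m`, so `v b ≥ 1`.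
`δ y_i ∈ Q A_Q ∩ A_m = Q A_m` has value `≥ 1 ≥ w_i`: PLV with `j0 = 0` gives `v(t) < 2`. `s t = α y_0 + β y_1`, `s ∉ m`. If `α, β ∈ Q` then `v(t) ≥ 2`, a contradiction.
If `α ∉ Q` take `u = y_1`, otherwise `u = y_0`: for `b ∈ Q`, `s' b = γ y_0 + ε y_1`, `α s' b = γ (s t - β y_1) + α ε y_1`. -/
def RNF_stmt : Prop := ∀ (k R A F K : Type u) [Field k] [IsAlgClosed k] [CommRing R] [IsDomain R] [CommRing A] [IsDomain A] [Algebra k R] [Algebra k A] [Algebra R A]
  [IsScalarTower k R A] [FaithfulSMul R A] [Field F] [Field K] [Algebra k F] [Algebra k K] [Algebra R F] [IsFractionRing R F] [Algebra A K] [IsFractionRing A K]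
  [Algebra F K] [Algebra R K] [IsScalarTower k R F] [IsScalarTower k A K] [IsScalarTower k F K] [IsScalarTower R A K] [IsScalarTower R F K] [Algebra.Smooth k A]
  [Algebra.IsIntegral R A] (n p : ℕ) [Fact p.Prime] [CharP k p], Fol p R A F K → ∀ x : Fin n → F, IsTranscendenceBasis k x → Module.finrank K (Ω[K⁄k]) = n →
  Module.finrank F (Ω[F⁄k]) = n → ringKrullDim A = n → ∀ h2 : 2 ≤ n, ∀ (ω : Form k F n) (μ : ℕ) (g : F), ω ≠ 0 → g ≠ 0 → 0 < μ → ∀ (m : Ideal A) [m.IsMaximal],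
  DiscrAt R ω μ (m.comap (algebraMap R A)) g → ∀ t : A, t ≠ 0 → ∀ δ : Derivation F K K, δ ≠ 0 → (∀ a : A, Loc m (δ (algebraMap A K a))) → Disc p m δ ω μ g t → ∀ (Q :
  Ideal A) (y : Fin n → A) (φ : A →ₐ[k] MvPowerSeries (Fin n) k), Q.IsPrime → Q ≤ m → t ∈ Q → Coord k m y → Taylor m y φ → y ⟨0, by omega⟩ ∈ Q → y ⟨1, by omega⟩ ∈ Q
  → (∀ b ∈ Q, Inn m (Ideal.span {b | ∃ i : Fin n, (i : ℕ) < 2 ∧ b = y i}) b) → Fix Q δ → ∃ u ∈ Q, ∀ b ∈ Q, Inn Q (Ideal.span {t, u}) b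

/-- **TRF** (medium; from FDR, SAT, QS.DUA, QS.GEN, RNF, QS.REG, QS.LCF). As QS.TRI (`Pool/Agent/helper51/QS/TRI.lean`). `m`, `h`, `y` from GEN (`S ≤ Q ∩ R ≤ m ∩ R`). `h
= 0`: (a) with `d = 0`. `h = 1`: (a) with `d = y_0`. `h = 2`: `g`, `t` of PltAt for `m`; `δ` from SAT (`Δ ≠ 0` from FDR, `D` from DUA); `Fix Q δ` by Sing (`Loc m`
implies `Loc Q`); RNF (`t ∈ I ≤ Q`): `u`. As `t ∈ I`, `s t ∈ (t₀)` with `s ∉ m₀`, so `s ∉ Q`: (b). `h ≥ 3`: (c) with `y_0, y_1, y_2` (REG, `φ` from LCF). -/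
def TRF_stmt : Prop := ∀ (k R A F K : Type u) [Field k] [IsAlgClosed k] [CommRing R] [IsDomain R] [CommRing A] [IsDomain A] [Algebra k R] [Algebra k A] [Algebra R A]
  [IsScalarTower k R A] [FaithfulSMul R A] [Field F] [Field K] [Algebra k F] [Algebra k K] [Algebra R F] [IsFractionRing R F] [Algebra A K] [IsFractionRing A K]
  [Algebra F K] [Algebra R K] [IsScalarTower k R F] [IsScalarTower k A K] [IsScalarTower k F K] [IsScalarTower R A K] [IsScalarTower R F K] [Algebra.Smooth k A]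
  [Algebra.IsIntegral R A] (n p : ℕ) [Fact p.Prime] [CharP k p], Fol p R A F K → ∀ x : Fin n → F, IsTranscendenceBasis k x → Module.finrank K (Ω[K⁄k]) = n →
  Module.finrank F (Ω[F⁄k]) = n → ringKrullDim A = n → 2 ≤ n → ∀ (S : Ideal R) (ω : Form k F n) (μ : ℕ), ω ≠ 0 → 0 < μ → PltAt (A := A) R K p S ω μ → ∀ Q : Ideal A,
  Q.IsPrime → (S.map (algebraMap R A)).radical ≤ Q → Sing F K Q → ∀ (m₀ : Ideal A) (t₀ : A), m₀.IsMaximal → Q ≤ m₀ → Eqn m₀ (S.map (algebraMap R A)).radical t₀ → Tri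
  Q t₀

/-! ### normality at the singular points -/

/-- **RSP** (short to medium). Powers of a regular sequence. (1) `q0 ^ N ∣ q1 x` implies `q0 ^ N ∣ x` by induction on `N`. (2) `q2` is regular modulo `(q0 ^ a, q1 ^ b)`:
induction on `a + b`. If `a > 1`: let `q2 x ∈ (q0 ^ a, q1 ^ b)`; modulo `(q0, q1 ^ b)` induction gives `x = q0 x' + q1 ^ b c`; then `q0 q2 x' ∈ (q0 ^ a, q1 ^ b)`, so
`q2 x' ∈ (q0 ^ (a-1), q1 ^ b)` (as `q0 ∣ q1 ^ b e` implies `q0 ∣ e`), `x' ∈ (q0 ^ (a-1), q1 ^ b)`. If `a = 1 < b`: `x = q0 c + q1 x'`, `q1 q2 x' ∈ (q0, q1 ^ b)`, so `q2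
x' ∈ (q0, q1 ^ (b-1))`. -/
def RSP_stmt : Prop := ∀ (L : Type u) [CommRing L] [IsDomain L] (q0 q1 q2 : L) (N : ℕ), q0 ≠ 0 → (∀ x, q0 ∣ q1 * x → q0 ∣ x) → (∀ x, q2 * x ∈ Ideal.span {q0, q1} → x
  ∈ Ideal.span {q0, q1}) → (∀ x, q0 ^ N ∣ q1 ^ N * x → q0 ^ N ∣ x) ∧ ∀ x, q2 ^ N * x ∈ Ideal.span {q0 ^ N, q1 ^ N} → x ∈ Ideal.span {q0 ^ N, q1 ^ N}

/-- **GTR** (medium to long; from QS.UNM, QS.DV1, RSP). Work in `L = A_Q` (compare the last part of QS.NRM, `Pool/Agent/*/QS/NRM.lean`). `I L = (t)`, radical; `t ∣ s y`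
implies `t ∣ y`. Tri Q t: (a) `s = d s'`, `t = d t'`: `s t' = t s'`, so `t ∣ t'`, `t' = t e`, `1 = d e`, but `d ∈ Q`. (b) DV1: `r ∈ (s, t) L`, so `x r` too. (c) UNM
with the `q_i ^ N` (RSP). -/
def GTR_stmt : Prop := ∀ (A : Type u) [CommRing A] [IsDomain A] [IsNoetherianRing A] (Q I : Ideal A) (t : A), Q.IsPrime → t ≠ 0 → I.IsRadical → I ≤ Q → t ∈ I → (∀ b
  ∈ I, Inn Q (Ideal.span {t}) b) → Tri Q t → ∀ (r s x : A) (N : ℕ), s ∈ Q → (∀ y, s * y ∈ I → y ∈ I) → (∃ (M : ℕ) (a : ℕ → A), 0 < M ∧ r ^ M + ∑ i ∈ Finset.range M,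
  a i * r ^ i * s ^ (M - i) ∈ I) → (∀ b ∈ Q, Inn Q (Ideal.span {s, t}) (b ^ N * (x * r))) → Inn Q (Ideal.span {s, t}) (x * r)

/-- **RHO** (medium; from FDR, CAP, HOM). `δ g = 0` (as in PCL), so `ρ c = c - g⁻¹ δ ^ (p-1) c` is killed by `δ`, and lies in `F` (FDR); `ρ` is `F`-linear, the identity
on `F` (`p ≥ 2`), maps `A_Q` to `A_Q ∩ F`, `t A_Q` to `t A_Q`. `s' z = s a + t b`, `s' ∉ Q`; multiply by `s' ^ (p-1)`: `r₀ z = s a' + t b'`, `r₀ ∈ R ∖ P`, `P = Q ∩ R`.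
Apply `ρ`: `r₀ z = s ρ(a') + ρ(t b')`. An element `a'' / s''` of `A_Q ∩ F` is `a'' s'' ^ (p-1) / s'' ^ p` with `a'' s'' ^ (p-1) ∈ A ∩ F = R` (CAP), `s'' ^ p ∈ R ∖ P`.
The numerator of `ρ(t b')` is an `r₂ ∈ R` in `t A_Q`, so `s₃ r₂ ∈ I` with `s₃ ∉ Q`; `I` is prime, `I ≤ Q`, so `r₂ ∈ I ∩ R = S` (HOM). -/
def RHO_stmt : Prop := ∀ (k R A F K : Type u) [Field k] [CommRing R] [IsDomain R] [CommRing A] [IsDomain A] [Algebra k R] [Algebra k A] [Algebra R A] [IsScalarTower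
  k R A] [FaithfulSMul R A] [Field F] [Field K] [Algebra k F] [Algebra k K] [Algebra R F] [IsFractionRing R F] [Algebra A K] [IsFractionRing A K] [Algebra F K]
  [Algebra R K] [IsScalarTower k R F] [IsScalarTower k A K] [IsScalarTower k F K] [IsScalarTower R A K] [IsScalarTower R F K] [IsIntegrallyClosed R]
  [Algebra.IsIntegral R A] (p : ℕ) [Fact p.Prime] [CharP K p], Fol p R A F K → ∀ S : Ideal R, S.IsPrime → ∀ Q : Ideal A, Q.IsPrime → (S.map (algebraMap R A)).radical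
  ≤ Q → ∀ (t : A) (δ : Derivation F K K) (g : K), δ ≠ 0 → (∀ a : A, Loc Q (δ (algebraMap A K a))) → Pcl p δ g → Loc Q g → ¬ LocI Q Q g → t ∈ (S.map (algebraMap R
  A)).radical → LocI Q (Ideal.span {t}) (δ (algebraMap A K t)) → ∀ s z : R, Inn Q (Ideal.span {algebraMap R A s, t}) (algebraMap R A z) → Inn (Q.comap (algebraMap R
  A)) (Ideal.span {s} ⊔ S) z

/-- **SGP** (medium; from FDR, PCL, HOM, SAT, GRG, NLP, IVT, TRF, GTR, RHO, QS.LCF, QS.DUA). `m ≥ Q` maximal, `g`, `t` from PltAt, `δ` from SAT (`D` from DUA). `Fix Q δ`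
by Sing, so `Fix m δ` (`δ a ∈ Q A_Q ∩ A_m = Q A_m`). `t ∈ I ≤ m`. `g'` from PCL: `Loc m g'` (GRG), not `LocI m m g'` (NLP), so `g'` is a unit of `A_m` and of `A_Q`.
IVT: `δ t ∈ t A_m` (`n ≤ p`, because `3 n (n-1) < 2 p`, `n ≥ 2`). TRF: Tri Q t. For `b ∈ Q`: `b ^ p = β ∈ Q ∩ R`, so `Inn Q (s, t) (b ^ p x r)` (`S ⊆ I`, and `I` is
`(t)` at `Q`). GTR with `N = p` (`s y ∈ I`, `s ∉ S` implies `y ∈ I`, as `I` is prime and `I ∩ R = S`). RHO. -/
def SGP_stmt : Prop := ∀ (k R A F K : Type u) [Field k] [IsAlgClosed k] [CommRing R] [IsDomain R] [CommRing A] [IsDomain A] [Algebra k R] [Algebra k A] [Algebra R A]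
  [IsScalarTower k R A] [FaithfulSMul R A] [Field F] [Field K] [Algebra k F] [Algebra k K] [Algebra R F] [IsFractionRing R F] [Algebra A K] [IsFractionRing A K]
  [Algebra F K] [Algebra R K] [IsScalarTower k R F] [IsScalarTower k A K] [IsScalarTower k F K] [IsScalarTower R A K] [IsScalarTower R F K] [Algebra.Smooth k A]
  [Algebra.IsIntegral R A] (n p : ℕ) [Fact p.Prime] [CharP k p], Fol p R A F K → ∀ x : Fin n → F, IsTranscendenceBasis k x → Module.finrank K (Ω[K⁄k]) = n →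
  Module.finrank F (Ω[F⁄k]) = n → ringKrullDim A = n → 2 ≤ n → 3 * n * (n - 1) < 2 * p → ∀ [IsIntegrallyClosed R] (S : Ideal R) (ω : Form k F n) (μ : ℕ), S.IsPrime →
  ω ≠ 0 → 0 < μ → PltAt (A := A) R K p S ω μ → ∀ Q : Ideal A, Q.IsPrime → Sing F K Q → ∀ r s x : R, S ≤ Q.comap (algebraMap R A) → s ∈ Q.comap (algebraMap R A) → s ∉
  S → (∃ (N : ℕ) (a : ℕ → R), 0 < N ∧ r ^ N + ∑ i ∈ Finset.range N, a i * r ^ i * s ^ (N - i) ∈ S) → (∀ b ∈ Q.comap (algebraMap R A), Inn (Q.comap (algebraMap R A))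
  (Ideal.span {s} ⊔ S) (b * (x * r))) → Inn (Q.comap (algebraMap R A)) (Ideal.span {s} ⊔ S) (x * r)

/-! ### the nonsingular points -/

/-- **FSD** (medium to long). Let `J ⊆ B`, `J² = 0`, `φ : R → B / J`; `β ∈ B` over `φ α`. `B' = B[U] / (U ^ p - β)` is free over `B` with the basis `1, ..., U ^ (p-1)`,
`J' = J B'`, `J'² = 0`. `A = R[U] / (U ^ p - α)` (basis), so `φ` extends to `A → B' / J'`, `u ↦ U`; lift it to `ψ : A → B'` (`A` is formally smooth). For `r ∈ R` we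
have `ψ r ∈ B + J'`; let `c₀ : B' → B` be the coefficient of `U ^ 0`. `r ↦ c₀ (ψ r)` is a homomorphism over `k` which lifts `φ`: the other coefficients lie in `J`, and
`J² = 0`. (`Algebra.FormallySmooth.iff_comp_surjective`.) -/
def FSD_stmt : Prop := ∀ (k R A : Type u) [CommRing k] [CommRing R] [CommRing A] [Algebra k R] [Algebra R A] [Algebra k A] [IsScalarTower k R A] (p : ℕ) (u : A) (α :
  R), 0 < p → u ^ p = algebraMap R A α → (∀ a : A, ∃ r : Fin p → R, a = ∑ i, algebraMap R A (r i) * u ^ (i : ℕ)) → (∀ r : Fin p → R, ∑ i, algebraMap R A (r i) * u ^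
  (i : ℕ) = 0 → r = 0) → Algebra.FormallySmooth k A → Algebra.FormallySmooth k R

/-- **SLF** (medium to long; from FDR, PCL, SLC, CAP, FTR, FSD). Let `A'` be `A` localised at `f ^ p = h`. `δ` maps `A'` to `A'`, `δ u = 1`. SLC: every `a ∈ A'` is `∑ r_i
u ^ i` with `r_i = EE (δ ^ i a) / i! ∈ A' ∩ F = R'` (`x = a / h ^ N ∈ F` has `a ∈ A ∩ F = R`, CAP). `1, u, ..., u ^ (p-1)` are linearly independent over `F` (`u ∉ F`,
`[K : F] = p` prime). `A'` is smooth over `k`, `u ^ p ∈ R`; FSD for `R' → A'`; `R'` is of finite type over `k` (FTR), so of finite presentation. (It may help to work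
with subrings of `K`, and `IsLocalization.algEquiv`.) -/
def SLF_stmt : Prop := ∀ (k R A F K : Type u) [Field k] [CommRing R] [IsDomain R] [CommRing A] [IsDomain A] [Algebra k R] [Algebra k A] [Algebra R A] [IsScalarTower
  k R A] [FaithfulSMul R A] [Field F] [Field K] [Algebra k F] [Algebra k K] [Algebra R F] [IsFractionRing R F] [Algebra A K] [IsFractionRing A K] [Algebra F K]
  [Algebra R K] [IsScalarTower k R F] [IsScalarTower k A K] [IsScalarTower k F K] [IsScalarTower R A K] [IsScalarTower R F K] [Algebra.Smooth k A]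
  [IsIntegrallyClosed R] [Algebra.IsIntegral R A] (p : ℕ) [Fact p.Prime] [CharP K p], Fol p R A F K → ∀ (Q : Ideal A) (δ : Derivation F K K) (u f : A), Slice Q δ u f
  → ∀ h : R, h ≠ 0 → algebraMap R A h = f ^ p → ∀ (R' : Type u) [CommRing R'] [Algebra k R'] [Algebra R R'] [IsScalarTower k R R'] [IsLocalization.Away h R'],
  Algebra.Smooth k R'

/-- **PLF** (medium). Primes of `R'` are the primes of `R` without `h`, with the same heights. `S' ∩ R = S`. Let `M'` be maximal in `R'`: `M = M' ∩ R` is maximal (`R / M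
⊆ R' / M'`, finite over `k`). IsLocAt `P'` and IsLocAt `P' ∩ R` are the same; IsCenter `P' O` implies IsCenter `(P' ∩ R) O`. `P' = S'` iff `P' ∩ R = S`. -/
def PLF_stmt : Prop := ∀ (k R R' F : Type u) [Field k] [CommRing R] [IsDomain R] [Algebra k R] [Algebra.FiniteType k R] [CommRing R'] [IsDomain R'] [Algebra k R']
  [Algebra R R'] [IsScalarTower k R R'] [Field F] [Algebra k F] [Algebra R F] [IsFractionRing R F] [Algebra R' F] [IsScalarTower k R F] [IsScalarTower R R' F] (h :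
  R) [IsLocalization.Away h R'] (n : ℕ) (S : Ideal R) (B : Ideal R → ℚ), h ∉ S → IsPlt k F R n S B → IsPlt k F R' n (S.map (algebraMap R R')) (fun P => B (P.comap
  (algebraMap R R')))

/-- **DMF** (short to medium). Noether normalisation: `R` is finite over a polynomial ring in `d` variables, of dimension `d`
(`MvPolynomial.ringKrullDim_of_isNoetherianRing`), so `dim R = d`, and `L` is algebraic over its field of fractions, so `d = n`. (Compare `Pool/Agent/*/QS/TRB.lean`.)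
-/
def DMF_stmt : Prop := ∀ (k R L : Type u) [Field k] [CommRing R] [IsDomain R] [Algebra k R] [Algebra.FiniteType k R] [Field L] [Algebra k L] [Algebra R L]
  [IsScalarTower k R L] [IsFractionRing R L] (n : ℕ) (x : Fin n → L), IsTranscendenceBasis k x → ringKrullDim R = n

/-- **NSP** (medium; from NFX, SLF, PLF, DMF, QS.CORE). `δ`, `u`, `f` from NFX; `h ∈ R` over `f ^ p`, `h ∉ P = Q ∩ R`, so `h ∉ S`. `R' = R_h` is smooth (SLF), of
dimension `n` (DMF), and `(R', S' + B')` is plt (PLF). QS.CORE for `R := R'`, `A := R'`, the trivial group (`PUnit`) gives: `R' / S'` is integrally closed. `r / s` is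
integral over it, so `r ∈ s R' + S'`, `h ^ N r ∈ s R + S`. -/
def NSP_stmt : Prop := ∀ (k R A F K : Type u) [Field k] [IsAlgClosed k] [CommRing R] [IsDomain R] [CommRing A] [IsDomain A] [Algebra k R] [Algebra k A] [Algebra R A]
  [IsScalarTower k R A] [FaithfulSMul R A] [Field F] [Field K] [Algebra k F] [Algebra k K] [Algebra R F] [IsFractionRing R F] [Algebra A K] [IsFractionRing A K]
  [Algebra F K] [Algebra R K] [IsScalarTower k R F] [IsScalarTower k A K] [IsScalarTower k F K] [IsScalarTower R A K] [IsScalarTower R F K] [Algebra.Smooth k A]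
  [IsIntegrallyClosed R] [Algebra.IsIntegral R A] [Algebra.FiniteType k R] (n p : ℕ) [Fact p.Prime] [CharP k p], Fol p R A F K → ∀ x : Fin n → F,
  IsTranscendenceBasis k x → 2 ≤ n → 3 * n * (n - 1) < 2 * p → ∀ (S : Ideal R) (B : Ideal R → ℚ), IsPlt k F R n S B → ∀ Q : Ideal A, Q.IsPrime → ¬ Sing F K Q → ∀ r s
  : R, S ≤ Q.comap (algebraMap R A) → s ∉ S → (∃ (N : ℕ) (a : ℕ → R), 0 < N ∧ r ^ N + ∑ i ∈ Finset.range N, a i * r ^ i * s ^ (N - i) ∈ S) → Inn (Q.comap (algebraMap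
  R A)) (Ideal.span {s} ⊔ S) r

/-! ### assembly -/

/-- **ASP** (short). Otherwise the nonzero noetherian module generated by the class of `r` in `R / J` has an associated prime: `P = {b : b x r ∈ J}` for some `x`. `J ≤
P`. The hypothesis gives `b x r ∈ J` with `b ∉ P`, a contradiction. -/
def ASP_stmt : Prop := ∀ (R : Type u) [CommRing R] [IsNoetherianRing R] (J : Ideal R) (r : R), (∀ P : Ideal R, P.IsPrime → J ≤ P → ∀ x : R, (∀ b ∈ P, Inn P J (b * (x
  * r))) → Inn P J (x * r)) → r ∈ J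

/-- **ICQ** (short to medium). `f ∈ Frac (R / S)` integral over `R / S`: `f = r / s`, `s ∉ S`, `r ^ N + ∑ a_i r ^ i s ^ (N-i) ∈ S`; `r = s a + i`, so `f = a`. (Compare
`Pool/Agent/*/QS/DSC.lean`.) -/
def ICQ_stmt : Prop := ∀ (R : Type u) [CommRing R] (S : Ideal R), S.IsPrime → (∀ r s : R, s ∉ S → (∃ (N : ℕ) (a : ℕ → R), 0 < N ∧ r ^ N + ∑ i ∈ Finset.range N, a i *
  r ^ i * s ^ (N - i) ∈ S) → r ∈ Ideal.span {s} ⊔ S) → IsIntegrallyClosed (R ⧸ S)

/-- **CRF** (medium to long; from QS.LCF, QS.NRA, QS.KDI, QS.TBF, HOM, FTR, RPF, NSP, SGP, ASP, ICQ). `A` is noetherian, all `A_m` are factorial (LCF), `A` is integrally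
closed (NRA); `A / R` is integral (HOM), `R` of finite type (FTR), noetherian. Transcendence bases (LCF, TBF), `dim Ω[F⁄k] = n` (KDI). IsPlt: `ω`, `μ`, and `g` for
every `M`. PltAt from RPF (`M = m ∩ R` is maximal). ICQ: let `r, s` be as there, `J = s R + S`; ASP: `P ≥ J` prime, `x`. `Q` over `P` (HOM). If `Q` is not singular: NSP
gives `Inn P J r`. Otherwise SGP. -/
def CRF_stmt : Prop := ∀ (k R A F K : Type u) [Field k] [IsAlgClosed k] [CommRing R] [IsDomain R] [CommRing A] [IsDomain A] [Algebra k R] [Algebra k A] [Algebra R A]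
  [IsScalarTower k R A] [FaithfulSMul R A] [Field F] [Field K] [Algebra k F] [Algebra k K] [Algebra R F] [IsFractionRing R F] [Algebra A K] [IsFractionRing A K]
  [Algebra F K] [Algebra R K] [IsScalarTower k R F] [IsScalarTower k A K] [IsScalarTower k F K] [IsScalarTower R A K] [IsScalarTower R F K] [Algebra.Smooth k A]
  [IsIntegrallyClosed R] (n p : ℕ) [Fact p.Prime] [CharP k p], 2 ≤ n → 3 * n * (n - 1) < 2 * p → ringKrullDim A = n → Fol p R A F K → ∀ (S : Ideal R) (B : Ideal R →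
  ℚ), IsPlt k F R n S B → IsIntegrallyClosed (R ⧸ S)

/-- **MNF** (medium; from CRF, HOM, QS.SML, QS.LCF, QS.KDI, QS.TBF, FTR). `F = Frac R`, `K = Frac A` with the algebra structure of `Frac R → Frac A`
(`FractionRing.liftAlgebra`). `[K : F] = p` (`IsFractionRing.finrank_eq`). `n ≤ 1`: SML. `n ≥ 2`: `dim_F Ω[F⁄k] = n` (KDI), so `BR_plt`
(`Pool/Agent/helper51/PC/Bridge.lean`) and `IsPlt_iff` translate the two versions of the definition; CRF. (Compare `Pool/Agent/helper51/QS/MAIN2.lean`.) -/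
def MNF_stmt : Prop := ∀ (n p : ℕ), p.Prime → 3 * n * (n - 1) < 2 * p → ∀ (k : Type u) [Field k] [IsAlgClosed k] [CharP k p] (A : Type u) [CommRing A] [IsDomain A]
  [Algebra k A] [Algebra.Smooth k A], ringKrullDim A = n → ∀ R : Subalgebra k A, IsIntegrallyClosed R → (∀ a : A, a ^ p ∈ R) → Module.finrank R A = p → ∀ (S : Ideal
  R) (B : Ideal R → ℚ), PltPair.IsPlt k (FractionRing R) R n S B → IsIntegrallyClosed (R ⧸ S)

end Pool.Agent.VF
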